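import Pool.Agent.Y584.Lub

set_option autoImplicit false

universe u

namespace Pool.Agent.Y584.Lub

open Cardinal Set Pool.Agent.Y584.Sc Pool.Agent.Y584.St

theorem reg_of_cof {α : Type u} [LinearOrder α] [WellFoundedLT α] (h : ℵ₀ ≤ Order.cof α) :
    (Order.cof α).IsRegular := by
  refine ⟨h, ?_⟩
  rw [Order.cof_ord_cof]

theorem exists_cofinal_map (α : Type u) [LinearOrder α] [WellFoundedLT α] :
    ∃ c : (Order.cof α).ord.ToType → α, StrictMono c ∧ ∀ x, ∃ i, x ≤ c i := by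
  obtain ⟨s, hs, hs2⟩ := Ordinal.exists_ord_cof_eq α
  have h1 : Ordinal.type ((· < ·) : s → s → Prop) = Ordinal.type
      ((· < ·) : (Order.cof α).ord.ToType → (Order.cof α).ord.ToType → Prop) := by
    rw [hs2, Ordinal.type_toType]
  obtain ⟨e⟩ := Ordinal.type_eq.1 h1
  refine ⟨fun i => (e.symm i).1, ?_, ?_⟩
  · intro i j hij
    have : e.symm i < e.symm j := e.symm.map_rel_iff.2 hij
    exact this
  · intro x
    obtain ⟨y, hy, hxy⟩ := hs x
    refine ⟨e ⟨y, hy⟩, ?_⟩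
    change x ≤ (e.symm (e ⟨y, hy⟩)).1
    rw [RelIso.symm_apply_apply]
    exact hxy

section

variable {κ : Cardinal.{u}}

theorem exists_scale_cof {L : ℕ → Type u} [∀ n, LinearOrder (L n)] [∀ n, WellFoundedLT (L n)]
    (hκ : κ.IsRegular) (hc : 2 ^ ℵ₀ < κ) (f : κ.ord.ToType → ∀ n, L n)
    (hf : ∀ α β, α ≤ β → LeS (f α) (f β))
    (hf' : ∀ α, ∃ β, ∃ m, ∀ n, m ≤ n → f α n < f β n) (hL : ∀ n, #(L n) < κ) :
    ∃ (lam : ℕ → Cardinal.{u}) (g : κ.ord.ToType → ∀ n, (lam n).ord.ToType),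
      (∀ n, (lam n).IsRegular) ∧ (∀ n, lam n < κ) ∧ (∀ n, ℵ₀ < lam n) ∧
      (∀ α β, α ≤ β → LeS (g α) (g β)) ∧ ∀ y, ∃ α, LeS y (g α) := by
  classical
  obtain ⟨h, e, h1, h2, h3⟩ := exact_on hκ hc f hf hf'
  let U : ℕ → Type u := fun n => {x : L (e n) // (x : WithTop (L (e n))) < h (e n)}
  have hbig : ∀ n, 2 ^ ℵ₀ < Order.cof (U n) := by
    intro n
    by_contra hcon
    rw [not_lt] at hcon
    obtain ⟨s, hs, hs2⟩ := Order.exists_cof_eq (U n)
    obtain ⟨u, hu1, hu2⟩ := h2 n (Subtype.val '' s) (by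
      rintro _ ⟨c, _, rfl⟩
      exact c.2) (Cardinal.mk_image_le.trans (hs2.trans_le hcon))
    obtain ⟨c, hcs, hc2⟩ := hs ⟨u, hu1⟩
    exact absurd (hu2 _ ⟨c, hcs, rfl⟩) (not_lt.2 hc2)
  have hale : ∀ n, ℵ₀ < Order.cof (U n) := fun n => (Cardinal.cantor _).trans (hbig n)
  choose c hc1 hc2 using fun n => exists_cofinal_map (U n)
  have hg : ∀ α n, ∃ i : (Order.cof (U n)).ord.ToType,
      (f α (e n) : WithTop (L (e n))) < h (e n) → (f α (e n) ≤ (c n i).1 ∧
        ∀ j, f α (e n) ≤ (c n j).1 → i ≤ j) := by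
    intro α n
    by_cases hlt : (f α (e n) : WithTop (L (e n))) < h (e n)
    · have hne : {i : (Order.cof (U n)).ord.ToType | f α (e n) ≤ (c n i).1}.Nonempty := by
        obtain ⟨i, hi⟩ := hc2 n ⟨f α (e n), hlt⟩
        exact ⟨i, hi⟩
      refine ⟨(wellFounded_lt : WellFounded ((· < ·) : (Order.cof (U n)).ord.ToType →
        (Order.cof (U n)).ord.ToType → Prop)).min _ hne, fun _ => ⟨?_, ?_⟩⟩
      · exact WellFounded.min_mem (wellFounded_lt : WellFounded ((· < ·) :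
          (Order.cof (U n)).ord.ToType → (Order.cof (U n)).ord.ToType → Prop)) _ hne
      · intro j hj
        exact not_lt.1 (WellFounded.not_lt_min (wellFounded_lt : WellFounded ((· < ·) :
          (Order.cof (U n)).ord.ToType → (Order.cof (U n)).ord.ToType → Prop))
          {i : (Order.cof (U n)).ord.ToType | f α (e n) ≤ (c n i).1} (x := j) hj)
    · exact ⟨(bdd_zero (reg_of_cof (hale n).le)).some, fun h => absurd h hlt⟩
  choose g hg using hg
  have hle : ∀ n, n ≤ e n := fun n => e.strictMono.le_apply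
  refine ⟨fun n => Order.cof (U n), g, fun n => reg_of_cof (hale n).le, fun n => ?_, hale, ?_, ?_⟩
  · exact (Order.cof_le_cardinalMk _).trans_lt
      ((Cardinal.mk_le_of_injective Subtype.val_injective).trans_lt (hL (e n)))
  · intro α β hab
    obtain ⟨m1, hm1⟩ := hf α β hab
    obtain ⟨m2, hm2⟩ := h1 α
    obtain ⟨m3, hm3⟩ := h1 β
    refine ⟨max m1 (max m2 m3), fun n hn => ?_⟩
    have k1 : m1 ≤ e n := ((le_max_left _ _).trans hn).trans (hle n)
    have k2 : m2 ≤ e n := (((le_max_left _ _).trans (le_max_right _ _)).trans hn).trans (hle n)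
    have k3 : m3 ≤ e n := (((le_max_right _ _).trans (le_max_right _ _)).trans hn).trans (hle n)
    exact (hg α n (hm2 _ k2)).2 _ ((hm1 _ k1).trans (hg β n (hm3 _ k3)).1)
  · intro y
    obtain ⟨β, m, hm⟩ := h3 (fun n => (c n (y n)).1) (fun n => (c n (y n)).2)
    obtain ⟨m3, hm3⟩ := h1 β
    refine ⟨β, max m m3, fun n hn => ?_⟩
    have k1 : m ≤ n := (le_max_left _ _).trans hn
    have k3 : m3 ≤ e n := ((le_max_right _ _).trans hn).trans (hle n)
    have h4 : (c n (y n)).1 ≤ (c n (g β n)).1 := (hm n k1).trans (hg β n (hm3 _ k3)).1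
    exact (hc1 n).le_iff_le.1 h4

theorem tr_unb {a b : Cardinal.{u}} (hb : b.IsRegular) (h : b = a) (z : a.ord.ToType) :
    ∃ i : b.ord.ToType, z < (h ▸ i : a.ord.ToType) := by
  subst h
  exact bdd_one hb z

theorem tr_mono {a b : Cardinal.{u}} (h : b = a) {i j : b.ord.ToType} (hij : i ≤ j) :
    (h ▸ i : a.ord.ToType) ≤ (h ▸ j : a.ord.ToType) := by
  subst h
  exact hij

theorem no_const (hκ : κ.IsRegular) (lam : ℕ → Cardinal.{u})
    (g : κ.ord.ToType → ∀ n, (lam n).ord.ToType)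
    (hreg : ∀ n, (lam n).IsRegular) (hlt : ∀ n, lam n < κ) (hunc : ∀ n, ℵ₀ < lam n)
    (hg1 : ∀ α β, α ≤ β → LeS (g α) (g β)) (hg2 : ∀ y, ∃ α, LeS y (g α))
    (κ' : Cardinal.{u}) (hκ' : ∀ m, ∃ n, m ≤ n ∧ lam n = κ') : False := by
  classical
  obtain ⟨n0, -, hn0⟩ := hκ' 0
  have hregκ' : κ'.IsRegular := hn0 ▸ hreg n0
  have hltκ' : κ' < κ := hn0 ▸ hlt n0
  have huncκ' : ℵ₀ < κ' := hn0 ▸ hunc n0
  let y : κ'.ord.ToType → ∀ n, (lam n).ord.ToType := fun i n =>
    if h : κ' = lam n then (h ▸ i : (lam n).ord.ToType) else (bdd_zero (hreg n)).some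
  choose b hb using fun i => hg2 (y i)
  obtain ⟨β, hβ⟩ := bdd hκ b (by rw [Cardinal.mk_ord_toType]; exact hltκ')
  have h1 : ∀ i, LeS (y i) (g β) := fun i => (hb i).trans (hg1 _ _ (hβ i).le)
  choose m hm using h1
  obtain ⟨v, hv⟩ := pigeon hregκ' (V := ULift.{u} ℕ) (by
    rw [Cardinal.mk_uLift, Cardinal.mk_nat, Cardinal.lift_aleph0]
    exact huncκ') (fun i => ⟨m i⟩)
  obtain ⟨n, hn, hn2⟩ := hκ' v.down
  obtain ⟨i, hi⟩ := tr_unb hregκ' hn2.symm (g β n)
  obtain ⟨j, hij, hj⟩ := hv i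
  have h2 := hm j n (by
    have : m j = v.down := by rw [← hj]
    rw [this]
    exact hn)
  simp only [y, dif_pos hn2.symm] at h2
  exact absurd ((hi.trans_le (tr_mono hn2.symm hij)).trans_le h2) (lt_irrefl _)

theorem exists_scale_mono {L : ℕ → Type u} [∀ n, LinearOrder (L n)] [∀ n, WellFoundedLT (L n)]
    (hκ : κ.IsRegular) (hc : 2 ^ ℵ₀ < κ) (f : κ.ord.ToType → ∀ n, L n)
    (hf : ∀ α β, α ≤ β → LeS (f α) (f β))
    (hf' : ∀ α, ∃ β, ∃ m, ∀ n, m ≤ n → f α n < f β n) (hL : ∀ n, #(L n) < κ) :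
    ∃ (lam : ℕ → Cardinal.{u}) (g : κ.ord.ToType → ∀ n, (lam n).ord.ToType),
      (∀ n, (lam n).IsRegular) ∧ StrictMono lam ∧
      (∀ α β, α ≤ β → LeS (g α) (g β)) ∧ ∀ y, ∃ α, LeS y (g α) := by
  classical
  obtain ⟨lam, g, h1, h2, h3, h4, h5⟩ := exists_scale_cof hκ hc f hf hf' hL
  obtain ⟨e, he⟩ := exists_increasing_or_nonincreasing_subseq (· < ·) lam
  have hle : ∀ n, n ≤ e n := fun n => e.strictMono.le_apply
  rcases he with he | he
  · refine ⟨fun n => lam (e n), fun α n => g α (e n), fun n => h1 _, fun m n hmn => he m n hmn,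
      ?_, ?_⟩
    · intro α β hab
      obtain ⟨m, hm⟩ := h4 α β hab
      exact ⟨m, fun n hn => hm _ (hn.trans (hle n))⟩
    · intro y'
      obtain ⟨y, hy, -⟩ := ext_inj2 (L := fun n => (lam n).ord.ToType)
        (fun n => (bdd_zero (h1 n)).some) e e.injective y'
      obtain ⟨α, m, hm⟩ := h5 y
      refine ⟨α, m, fun n hn => ?_⟩
      rw [← hy n]
      exact hm _ (hn.trans (hle n))
  · exfalso
    -- eventually constant
    have hne : (range (fun n => lam (e n))).Nonempty := ⟨_, 0, rfl⟩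
    obtain ⟨n0, hn0⟩ := (Cardinal.lt_wf).min_mem _ hne
    refine no_const hκ lam g h1 h2 h3 h4 h5 (lam (e n0)) ?_
    intro m
    refine ⟨e (max m n0), (le_max_left _ _).trans (hle _), ?_⟩
    have hmin : ¬ lam (e (max m n0)) < lam (e n0) := by
      have := (Cardinal.lt_wf).not_lt_min (range (fun n => lam (e n)))
        (x := lam (e (max m n0))) ⟨_, rfl⟩
      rw [← hn0] at this
      exact this
    rcases (le_max_right m n0).eq_or_lt with heq | hlt
    · rw [← heq]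
    · exact le_antisymm (not_lt.1 (he _ _ hlt)) (not_lt.1 hmin)

theorem pass_of_scale (lam : ℕ → Cardinal.{u}) (hreg : ∀ n, (lam n).IsRegular)
    (hmono : StrictMono lam) (g : κ.ord.ToType → ∀ n, (lam n).ord.ToType)
    (hg1 : ∀ α β, α ≤ β → LeS (g α) (g β)) (hg2 : ∀ y, ∃ α, LeS y (g α)) :
    ∀ ψ : Loc (fun n => (lam n).ord.ToType), ∃ β, ∀ α, β ≤ α → Pass ψ (g α) := by
  intro ψ
  choose h hh using fun n => bdd (hreg n) (fun s => ψ n s) (mk_node lam hreg hmono (le_refl n))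
  obtain ⟨β, hβ⟩ := hg2 h
  refine ⟨β, fun α hα => ?_⟩
  obtain ⟨m, hm⟩ := hβ.trans (hg1 β α hα)
  exact ⟨m, fun n hn => (hh n _).le.trans (hm n hn)⟩

/-- The theorem for regular `κ` above the continuum with a strictly increasing sequence. -/
theorem core_seq {L : ℕ → Type u} [∀ n, LinearOrder (L n)] [∀ n, WellFoundedLT (L n)]
    (hκ : κ.IsRegular) (hc : 2 ^ ℵ₀ < κ) (f : κ.ord.ToType → ∀ n, L n)
    (hf : ∀ α β, α ≤ β → LeS (f α) (f β))
    (hf' : ∀ α, ∃ β, ∃ m, ∀ n, m ≤ n → f α n < f β n) (hL : ∀ n, #(L n) < κ) :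
    ∃ (P : Type u) (_ : PartialOrder P), #P = κ ∧
      (∀ A : Set P, IsAntichain (· ≤ ·) A → #A < κ) ∧
      ∀ I : Set P, I.Nonempty → DirectedOn (· ≤ ·) I → #I < κ := by
  obtain ⟨lam, g, h1, h2, h3, h4⟩ := exists_scale_mono hκ hc f hf hf' hL
  exact core_abstract hκ (fun n => (lam n).ord.ToType) (fun n => bdd_zero (h1 n))
    (fun n x => bdd_one (h1 n) x) g (pass_of_scale lam h1 h2 g h3 h4)

end

/-- singular cardinals of countable cofinality above the continuum -/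
theorem core_sing {lam : Cardinal.{u}} (hcof : lam.ord.cof = ℵ₀) (hc : 2 ^ ℵ₀ < lam) :
    ∃ (P : Type u) (_ : PartialOrder P), #P = Order.succ lam ∧
      (∀ A : Set P, IsAntichain (· ≤ ·) A → #A < Order.succ lam) ∧
      ∀ I : Set P, I.Nonempty → DirectedOn (· ≤ ·) I → #I < Order.succ lam := by
  classical
  have hal : ℵ₀ < lam := (Cardinal.cantor _).trans hc
  have hinf : ℵ₀ ≤ lam := hal.le
  obtain ⟨f, hf1, hf2⟩ := cof_omega_seq hinf hcof
  let c : ℕ → Cardinal.{u} := fun n => Order.succ (max ℵ₀ #(Iio (f n)))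
  have hcreg : ∀ n, (c n).IsRegular := fun n => Cardinal.isRegular_succ (le_max_left _ _)
  have hclt : ∀ n, #(Iio (f n)) < c n := fun n => (le_max_right _ _).trans_lt (Order.lt_succ _)
  have hcle : ∀ n, c n < Order.succ lam := by
    intro n
    refine Order.lt_succ_of_le (Order.succ_le_of_lt (max_lt hal ?_))
    exact Pool.Agent.Helper113.F.mk_Iio_lt_of (f n)
  have hbd : ∀ T : Set (∀ n, (c n).ord.ToType), ∃ h : ∀ n, (c n).ord.ToType, #T ≤ lam →
      ∀ t ∈ T, ∃ m, ∀ n, m ≤ n → t n < h n := by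
    intro T
    by_cases hT : #T ≤ lam
    · obtain ⟨j⟩ : Nonempty (T ↪ lam.ord.ToType) := by
        rw [← Cardinal.le_def, Cardinal.mk_ord_toType]
        exact hT
      let S : ℕ → Set T := fun n => {t | j t < f n}
      have hScard : ∀ n, #(S n) < c n := by
        intro n
        refine lt_of_le_of_lt ?_ (hclt n)
        exact Cardinal.mk_le_of_injective (f := fun t : S n => (⟨j t.1, t.2⟩ : Iio (f n))) (by
          intro s t hst
          apply Subtype.ext
          apply j.injective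
          exact congrArg Subtype.val hst)
      choose h hh using fun n => bdd (hcreg n) (fun t : S n => t.1.1 n) (hScard n)
      refine ⟨h, fun _ t ht => ?_⟩
      obtain ⟨n, hn⟩ := hf2 (j ⟨t, ht⟩)
      exact ⟨n, fun k hk => hh k ⟨⟨t, ht⟩, hn.trans_le (hf1 hk)⟩⟩
    · exact ⟨fun n => (bdd_zero (hcreg n)).some, fun h => absurd h hT⟩
  choose ub hub using hbd
  let wf : WellFounded ((· < ·) : (Order.succ lam).ord.ToType → (Order.succ lam).ord.ToType →
    Prop) := wellFounded_lt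
  let g : (Order.succ lam).ord.ToType → ∀ n, (c n).ord.ToType := wf.fix
    (fun α ih => ub (range (fun β : Iio α => ih β.1 β.2)))
  have hg : ∀ α, g α = ub (range (fun β : Iio α => g β.1)) := fun α => wf.fix_eq _ α
  have hlt : ∀ α β, α < β → ∃ m, ∀ n, m ≤ n → g α n < g β n := by
    intro α β hab
    rw [hg β]
    refine hub _ ?_ _ ⟨⟨α, hab⟩, rfl⟩
    exact Cardinal.mk_range_le.trans
      (Order.lt_succ_iff.1 (Pool.Agent.Helper113.F.mk_Iio_lt_of β))
  have hκ : (Order.succ lam).IsRegular := Cardinal.isRegular_succ hinf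
  refine core_seq hκ (hc.trans (Order.lt_succ _)) g ?_ ?_ (fun n => ?_)
  · intro α β hab
    rcases hab.eq_or_lt with rfl | hlt'
    · exact LeS.refl _
    · obtain ⟨m, hm⟩ := hlt α β hlt'
      exact ⟨m, fun n hn => (hm n hn).le⟩
  · intro α
    obtain ⟨β, hβ⟩ := bdd_one hκ α
    exact ⟨β, hlt α β hβ⟩
  · rw [Cardinal.mk_ord_toType]
    exact hcle n

end Pool.Agent.Y584.Lub
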