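import Pool.Agent.Y584.Scale

set_option autoImplicit false

universe u

namespace Pool.Agent.Y584.Sc

open Cardinal Set

section order

variable {L : ℕ → Type u} [∀ n, LinearOrder (L n)]

/-- the strict order: the first difference is at an odd place, where `y` is smaller, and `y`
dominates `x` at all even places -/
def Tri (x y : ∀ n, L n) : Prop :=
  ∃ n : ℕ, (∀ i, i < 2 * n + 1 → x i = y i) ∧ y (2 * n + 1) < x (2 * n + 1) ∧
    ∀ i, x (2 * i) ≤ y (2 * i)

theorem Tri.irrefl (x : ∀ n, L n) : ¬ Tri x x := by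
  rintro ⟨n, _, h, _⟩
  exact lt_irrefl _ h

theorem Tri.trans {x y z : ∀ n, L n} (h1 : Tri x y) (h2 : Tri y z) : Tri x z := by
  obtain ⟨n, a1, a2, a3⟩ := h1
  obtain ⟨m, b1, b2, b3⟩ := h2
  rcases lt_trichotomy n m with h | h | h
  · refine ⟨n, fun i hi => (a1 i hi).trans (b1 i (by omega)), ?_, fun i => (a3 i).trans (b3 i)⟩
    rw [← b1 (2 * n + 1) (by omega)]
    exact a2
  · subst h
    exact ⟨n, fun i hi => (a1 i hi).trans (b1 i hi), b2.trans a2, fun i => (a3 i).trans (b3 i)⟩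
  · refine ⟨m, fun i hi => (a1 i (by omega)).trans (b1 i hi), ?_, fun i => (a3 i).trans (b3 i)⟩
    rw [a1 (2 * m + 1) (by omega)]
    exact b2

/-- the underlying set of the partial order -/
def PO (G : Set (∀ n, L n)) : Type u := {x // x ∈ G}

instance instPO (G : Set (∀ n, L n)) : PartialOrder (PO G) where
  le a b := a.1 = b.1 ∨ Tri a.1 b.1
  le_refl a := Or.inl rfl
  le_trans a b c := by
    rintro (h1 | h1) (h2 | h2)
    · exact Or.inl (h1.trans h2)
    · exact Or.inr (h1 ▸ h2)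
    · exact Or.inr (h2 ▸ h1)
    · exact Or.inr (h1.trans h2)
  le_antisymm a b := by
    rintro (h1 | h1) (h2 | h2)
    · exact Subtype.ext h1
    · exact Subtype.ext h1
    · exact Subtype.ext h2.symm
    · exact absurd (h1.trans h2) (Tri.irrefl _)

theorem PO.le_def {G : Set (∀ n, L n)} (a b : PO G) : a ≤ b ↔ (a.1 = b.1 ∨ Tri a.1 b.1) :=
  Iff.rfl

theorem dir_stab [∀ n, WellFoundedLT (L n)] (D : Set (∀ n, L n)) (hne : D.Nonempty) :
    ∀ n : ℕ, ∃ δ ∈ D, ∀ γ ∈ D, (δ = γ ∨ Tri δ γ) → ∀ i, i < 2 * n + 1 → γ i = δ i := by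
  intro n
  induction n with
  | zero =>
    obtain ⟨δ, hδ⟩ := hne
    refine ⟨δ, hδ, ?_⟩
    rintro γ hγ (rfl | ⟨n, h, _, _⟩) i hi
    · rfl
    · exact (h i (by omega)).symm
  | succ n ih =>
    obtain ⟨δ, hδ, hδ2⟩ := ih
    have hS : ((fun γ : (∀ n, L n) => γ (2 * n + 1)) '' {γ | γ ∈ D ∧ (δ = γ ∨ Tri δ γ)}).Nonempty :=
      ⟨_, δ, ⟨hδ, Or.inl rfl⟩, rfl⟩
    obtain ⟨ε, ⟨hε, hδε⟩, hmin⟩ := (wellFounded_lt : WellFounded ((· < ·) :
      L (2 * n + 1) → L (2 * n + 1) → Prop)).min_mem _ hS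
    have hmin2 : ∀ γ ∈ D, (δ = γ ∨ Tri δ γ) → ε (2 * n + 1) ≤ γ (2 * n + 1) := by
      intro γ hγ hδγ
      have := WellFounded.not_lt_min (wellFounded_lt : WellFounded ((· < ·) :
        L (2 * n + 1) → L (2 * n + 1) → Prop))
        ((fun γ : (∀ n, L n) => γ (2 * n + 1)) '' {γ | γ ∈ D ∧ (δ = γ ∨ Tri δ γ)})
        (x := γ (2 * n + 1)) ⟨γ, ⟨hγ, hδγ⟩, rfl⟩
      rw [← hmin] at this
      exact not_lt.1 this
    refine ⟨ε, hε, ?_⟩
    rintro γ hγ (rfl | hεγ) i hi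
    · rfl
    · have hδγ : δ = γ ∨ Tri δ γ := by
        rcases hδε with rfl | h
        · exact Or.inr hεγ
        · exact Or.inr (h.trans hεγ)
      obtain ⟨m, h1, h2, h3⟩ := hεγ
      rcases lt_or_ge n m with hnm | hnm
      · exact (h1 i (by omega)).symm
      · exfalso
        rcases hnm.lt_or_eq with hlt | heq
        · have e1 := hδ2 γ hγ hδγ (2 * m + 1) (by omega)
          have e2 := hδ2 ε hε hδε (2 * m + 1) (by omega)
          rw [e1, e2] at h2
          exact lt_irrefl _ h2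
        · subst heq
          exact absurd h2 (not_lt.2 (hmin2 γ hγ hδγ))

theorem dir_bdd [∀ n, WellFoundedLT (L n)] (D : Set (∀ n, L n)) (hne : D.Nonempty)
    (hdir : ∀ a ∈ D, ∀ b ∈ D, ∃ c ∈ D, (a = c ∨ Tri a c) ∧ (b = c ∨ Tri b c)) :
    ∃ x : (∀ n, L n), ∀ δ ∈ D, ∀ i, δ (2 * i) ≤ x (2 * i) := by
  choose ε hε hε2 using dir_stab D hne
  refine ⟨fun j => ε j j, fun δ hδ i => ?_⟩
  obtain ⟨γ, hγ, h1, h2⟩ := hdir δ hδ (ε (2 * i)) (hε _)
  have e1 : γ (2 * i) = ε (2 * i) (2 * i) := hε2 (2 * i) γ hγ h2 (2 * i) (by omega)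
  have e2 : δ (2 * i) ≤ γ (2 * i) := by
    rcases h1 with rfl | ⟨n, _, _, h⟩
    · exact le_rfl
    · exact h i
  exact e2.trans e1.le

/-- `x ↾ m` is a good node for `X` -/
def Good (X : Set (∀ n, L n)) (m : ℕ) (x : ∀ n, L n) : Prop :=
  ∀ ψ : (∀ n, L n), ∃ γ ∈ X, (∀ i, i < m → γ i = x i) ∧ ∀ i, m ≤ i → ψ i ≤ γ i

end order

theorem mk_node (lam : ℕ → Cardinal.{u}) (hreg : ∀ n, (lam n).IsRegular) (hmono : StrictMono lam)
    {m n : ℕ} (hmn : m ≤ n) : #(∀ i : Fin m, (lam i).ord.ToType) < lam n := by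
  rcases Nat.eq_zero_or_pos m with rfl | hm
  · rw [Cardinal.mk_eq_one]
    exact one_lt_aleph0.trans_le (hreg n).aleph0_le
  · obtain ⟨k, rfl⟩ : ∃ k, m = k + 1 := ⟨m - 1, by omega⟩
    rw [Cardinal.mk_pi]
    refine lt_of_le_of_lt ?_ (hmono (show k < n by omega))
    calc Cardinal.prod (fun i : Fin (k + 1) => #((lam i).ord.ToType))
        ≤ Cardinal.prod (fun _ : Fin (k + 1) => lam k) := by
          refine Cardinal.prod_le_prod _ _ (fun i => ?_)
          rw [Cardinal.mk_ord_toType]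
          exact hmono.monotone (by omega)
      _ ≤ lam k := by
          rw [Cardinal.prod_const]
          simp only [Cardinal.mk_fin, Cardinal.lift_uzero, Cardinal.lift_natCast]
          exact Cardinal.power_nat_le (hreg k).aleph0_le

section good

variable (lam : ℕ → Cardinal.{u}) (hreg : ∀ n, (lam n).IsRegular) (hmono : StrictMono lam)

include hreg hmono in
theorem exists_good (X : Set (∀ n, (lam n).ord.ToType)) (hX : ∀ h, ∃ γ ∈ X, LeS h γ) :
    ∃ m x, Good X m x := by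
  classical
  by_contra hcon
  have hbad : ∀ (m : ℕ) (x : ∀ n, (lam n).ord.ToType), ∃ ψ : (∀ n, (lam n).ord.ToType),
      ∀ γ ∈ X, (∀ i, i < m → γ i = x i) → ∃ i, m ≤ i ∧ γ i < ψ i := by
    intro m x
    by_contra hc
    refine hcon ⟨m, x, fun ψ => ?_⟩
    by_contra hc2
    refine hc ⟨ψ, fun γ hγ h => ?_⟩
    by_contra hc3
    refine hc2 ⟨γ, hγ, h, fun i hi => ?_⟩
    by_contra hc4
    exact hc3 ⟨i, hi, not_le.1 hc4⟩
  choose ψ hψ using hbad
  let ext : ∀ m : ℕ, (∀ i : Fin m, (lam i).ord.ToType) → ∀ n, (lam n).ord.ToType :=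
    fun m t n => if h : n < m then t ⟨n, h⟩ else (bdd_zero (hreg n)).some
  have hH : ∀ m n : ℕ, ∃ b : (lam n).ord.ToType, m ≤ n → ∀ t, ψ m (ext m t) n < b := by
    intro m n
    by_cases hmn : m ≤ n
    · obtain ⟨b, hb⟩ := bdd (hreg n) (fun t => ψ m (ext m t) n) (mk_node lam hreg hmono hmn)
      exact ⟨b, fun _ => hb⟩
    · exact ⟨(bdd_zero (hreg n)).some, fun h => absurd h hmn⟩
  choose H hH using hH
  have hH2 : ∀ n : ℕ, ∃ b : (lam n).ord.ToType, ∀ m, m ≤ n → H m n < b := by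
    intro n
    obtain ⟨b, hb⟩ := bdd (hreg n) (fun m : ULift.{u} (Fin (n + 1)) => H m.down n) (by
      refine lt_of_lt_of_le ?_ (hreg n).aleph0_le
      exact Cardinal.lt_aleph0_of_finite _)
    exact ⟨b, fun m hm => hb ⟨⟨m, by omega⟩⟩⟩
  choose H2 hH2 using hH2
  obtain ⟨γ, hγ, m, hm⟩ := hX H2
  obtain ⟨i, hi, hlt⟩ := hψ m (ext m (fun j => γ j)) γ hγ (by
    intro i hi
    simp only [ext, dif_pos hi])
  have h1 := hH m i hi (fun j => γ j)
  have h2 := hH2 i m hi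
  have h3 := hm i hi
  exact absurd (((hlt.trans h1).trans h2).trans_le h3) (lt_irrefl _)

include hreg hmono in
theorem Good.step {X : Set (∀ n, (lam n).ord.ToType)} {m : ℕ} {x : ∀ n, (lam n).ord.ToType}
    (h : Good X m x) (b : (lam m).ord.ToType) :
    ∃ c, b ≤ c ∧ Good X (m + 1) (Function.update x m c) := by
  classical
  by_contra hcon
  have hbad : ∀ c : (lam m).ord.ToType, ∃ ψ : (∀ n, (lam n).ord.ToType), b ≤ c →
      ∀ γ ∈ X, (∀ i, i < m + 1 → γ i = Function.update x m c i) → ∃ i, m + 1 ≤ i ∧ γ i < ψ i := by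
    intro c
    by_contra hc
    by_cases hbc : b ≤ c
    · refine hcon ⟨c, hbc, fun ψ => ?_⟩
      by_contra hc2
      refine hc ⟨ψ, fun _ γ hγ h => ?_⟩
      by_contra hc3
      refine hc2 ⟨γ, hγ, h, fun i hi => ?_⟩
      by_contra hc4
      exact hc3 ⟨i, hi, not_le.1 hc4⟩
    · exact hc ⟨x, fun h => absurd h hbc⟩
  choose ψ hψ using hbad
  have hH : ∀ n : ℕ, ∃ e : (lam n).ord.ToType, m + 1 ≤ n → ∀ c, ψ c n < e := by
    intro n
    by_cases hmn : m + 1 ≤ n
    · obtain ⟨e, he⟩ := bdd (hreg n) (fun c => ψ c n) (by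
        rw [Cardinal.mk_ord_toType]
        exact hmono (by omega))
      exact ⟨e, fun _ => he⟩
    · exact ⟨(bdd_zero (hreg n)).some, fun h => absurd h hmn⟩
  choose H hH using hH
  obtain ⟨γ, hγ, h1, h2⟩ := h (Function.update H m b)
  have hb : b ≤ γ m := by
    have := h2 m le_rfl
    rwa [Function.update_self] at this
  obtain ⟨i, hi, hlt⟩ := hψ (γ m) hb γ hγ (by
    intro i hi
    rcases (Nat.lt_succ_iff.1 hi).lt_or_eq with hlt | rfl
    · rw [Function.update_of_ne hlt.ne]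
      exact h1 i hlt
    · rw [Function.update_self])
  have h3 := hH i hi (γ m)
  have h4 := h2 i (by omega)
  rw [Function.update_of_ne (by omega)] at h4
  exact absurd ((hlt.trans h3).trans_le h4) (lt_irrefl _)

include hreg hmono in
theorem exists_tri (X : Set (∀ n, (lam n).ord.ToType)) (hX : ∀ h, ∃ γ ∈ X, LeS h γ) :
    ∃ α ∈ X, ∃ γ ∈ X, Tri α γ := by
  obtain ⟨n, y, hy⟩ : ∃ n y, Good X (2 * n + 1) y := by
    obtain ⟨m, x, hx⟩ := exists_good lam hreg hmono X hX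
    rcases Nat.even_or_odd m with ⟨k, hk⟩ | ⟨k, hk⟩
    · obtain ⟨c, _, hc⟩ := hx.step lam hreg hmono (bdd_zero (hreg m)).some
      have : m + 1 = 2 * k + 1 := by omega
      exact ⟨k, _, this ▸ hc⟩
    · exact ⟨k, x, hk ▸ hx⟩
  obtain ⟨B, _, hB⟩ := hy.step lam hreg hmono (bdd_zero (hreg _)).some
  obtain ⟨b, hb⟩ := bdd_one (hreg _) B
  obtain ⟨C, hbC, hC⟩ := hy.step lam hreg hmono b
  obtain ⟨α, hα, hα1, _⟩ := hC (fun n => (bdd_zero (hreg n)).some)
  obtain ⟨γ, hγ, hγ1, hγ2⟩ := hB α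
  have e1 : ∀ i, i < 2 * n + 1 → α i = γ i := by
    intro i hi
    rw [hα1 i (by omega), hγ1 i (by omega), Function.update_of_ne (by omega),
      Function.update_of_ne (by omega)]
  refine ⟨α, hα, γ, hγ, n, e1, ?_, ?_⟩
  · rw [hα1 _ (by omega), hγ1 _ (by omega), Function.update_self, Function.update_self]
    exact hb.trans_le hbC
  · intro i
    rcases lt_or_ge (2 * i) (2 * n + 1) with h | h
    · exact (e1 _ h).le
    · exact hγ2 _ (by omega)

end good

/-- The main combinatorial theorem. -/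
theorem core (ν : Cardinal.{u}) : ∃ κ : Cardinal.{u}, ν < κ ∧ κ.IsRegular ∧
    ∃ (P : Type u) (_ : PartialOrder P), #P = κ ∧
      (∀ A : Set P, IsAntichain (· ≤ ·) A → #A < κ) ∧
      ∀ I : Set P, I.Nonempty → DirectedOn (· ≤ ·) I → #I < κ := by
  classical
  obtain ⟨κ, lam, g, hνκ, hκ, hreg, hmono, hg1, hg2⟩ := exists_true_scale ν
  have hP0 : ∀ S : Set κ.ord.ToType, (∀ β, ∃ α ∈ S, β ≤ α) →
      ∀ h, ∃ γ ∈ g '' S, LeS h γ := by
    intro S hS h
    obtain ⟨β, hβ⟩ := hg2 h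
    obtain ⟨α, hα, hβα⟩ := hS β
    exact ⟨g α, ⟨α, hα, rfl⟩, hβ.trans (hg1 _ _ hβα)⟩
  -- a set of elements which is not small is cofinal
  have hP1 : ∀ X : Set (∀ n, (lam n).ord.ToType), X ⊆ range g → ¬ #X < κ →
      ∀ h, ∃ γ ∈ X, LeS h γ := by
    intro X hXg hX h
    have hun : ∀ β, ∃ α ∈ g ⁻¹' X, β ≤ α := by
      intro β
      by_contra hcon
      push Not at hcon
      apply hX
      have hsub : X ⊆ g '' (Iio β) := by
        intro x hx
        obtain ⟨α, rfl⟩ := hXg hx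
        exact ⟨α, hcon α hx, rfl⟩
      exact (Cardinal.mk_le_mk_of_subset hsub).trans_lt
        (Cardinal.mk_image_le.trans_lt (Pool.Agent.Helper113.F.mk_Iio_lt_of β))
    obtain ⟨γ, hγ, hh⟩ := hP0 _ hun h
    exact ⟨γ, image_preimage_subset _ _ hγ, hh⟩
  let G : Set (∀ n, (lam n).ord.ToType) := range g
  have hdirb : ∀ D : Set (∀ n, (lam n).ord.ToType), D ⊆ range g → D.Nonempty →
      (∀ a ∈ D, ∀ b ∈ D, ∃ c ∈ D, (a = c ∨ Tri a c) ∧ (b = c ∨ Tri b c)) → #D < κ := by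
    intro D hDg hne hdir
    by_contra hcon
    obtain ⟨x, hx⟩ := dir_bdd D hne hdir
    have h1 : ∀ n, ∃ b, x n < b := fun n => bdd_one (hreg n) (x n)
    choose y hy using h1
    obtain ⟨γ, hγ, m, hm⟩ := hP1 D hDg hcon y
    have h2 := hm (2 * m) (by omega)
    have h3 := hx γ hγ m
    exact absurd ((hy (2 * m)).trans_le (h2.trans h3)) (lt_irrefl _)
  have hval : ∀ A : Set (PO G), #A = #(Subtype.val '' A : Set (∀ n, (lam n).ord.ToType)) := by
    intro A
    exact (Cardinal.mk_image_eq (s := A) (f := (Subtype.val : PO G → _))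
      Subtype.val_injective).symm
  have hsubr : ∀ A : Set (PO G), (Subtype.val '' A : Set (∀ n, (lam n).ord.ToType)) ⊆ range g := by
    rintro A _ ⟨a, _, rfl⟩
    exact a.2
  refine ⟨κ, hνκ, hκ, PO G, inferInstance, ?_, ?_, ?_⟩
  · refine le_antisymm ?_ ?_
    · have : #(range g) ≤ #(κ.ord.ToType) := Cardinal.mk_range_le
      rw [Cardinal.mk_ord_toType] at this
      exact this
    · by_contra hcon
      rw [not_le] at hcon
      -- then `G` is bounded
      have hG : #(range g) < κ := hcon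
      have hfib : ∀ γ : range g, ∃ b, ∀ α, g α = γ.1 → α < b ∨ ∀ β, ∃ α, β ≤ α ∧ g α = γ.1 := by
        intro γ
        by_cases h : ∀ β, ∃ α, β ≤ α ∧ g α = γ.1
        · obtain ⟨b⟩ := bdd_zero hκ
          exact ⟨b, fun _ _ => Or.inr h⟩
        · push Not at h
          obtain ⟨β, hβ⟩ := h
          refine ⟨β, fun α hα => Or.inl ?_⟩
          by_contra hc
          exact hβ α (not_lt.1 hc) hα
      choose b hb using hfib
      obtain ⟨c, hc⟩ := bdd hκ b hG
      rcases hb ⟨g c, c, rfl⟩ c rfl with h | h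
      · exact absurd (h.trans (hc _)) (lt_irrefl _)
      · -- `g c` is above everything
        have h1 : ∀ n, ∃ b, g c n < b := fun n => bdd_one (hreg n) (g c n)
        choose y hy using h1
        obtain ⟨α, hα⟩ := hg2 y
        obtain ⟨β, hαβ, hβ⟩ := h α
        obtain ⟨m, hm⟩ := hα.trans (hg1 _ _ hαβ)
        rw [hβ] at hm
        exact absurd (hm m le_rfl) (not_le.2 (hy m))
  · intro A hA
    by_contra hcon
    rw [hval] at hcon
    obtain ⟨α, ⟨a, ha, rfl⟩, γ, ⟨c, hc, rfl⟩, htri⟩ :=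
      exists_tri lam hreg hmono _ (hP1 _ (hsubr A) hcon)
    have hac : a ≠ c := by
      rintro rfl
      exact Tri.irrefl _ htri
    exact hA ha hc hac (Or.inr htri)
  · intro I hne hdir
    rw [hval]
    refine hdirb _ (hsubr I) (hne.image _) ?_
    rintro _ ⟨a, ha, rfl⟩ _ ⟨b, hb, rfl⟩
    obtain ⟨c, hc, h1, h2⟩ := hdir a ha b hb
    exact ⟨c.1, ⟨c, hc, rfl⟩, h1, h2⟩

/-- existence of a bound (Milner and Prikry) -/
theorem exists_bound {κ : Cardinal.{u}} (hκ : ℵ₀ ≤ κ) (P : Type u) [PartialOrder P]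
    (hA : ∀ A : Set P, IsAntichain (· ≤ ·) A → #A < κ) :
    ∃ S : Set (Order.Ideal P), #S ≤ 2 ^ κ ∧ ∀ x : P, ∃ I ∈ S, x ∈ I := by
  obtain ⟨𝒟, h1, h2, h3⟩ := Pool.Agent.Helper113.F.lemU (Q := P) (I := PUnit.{u+1})
    (fun _ => κ) (fun _ => hκ) (fun _ _ _ => le_rfl) (fun _ => by
      refine le_trans ?_ hκ
      exact Cardinal.mk_le_aleph0)
  refine Pool.Agent.Helper113.F.ideals_of_covBy ⟨𝒟 PUnit.unit, h1 _, ?_, ?_⟩
  · intro D hD
    exact (h2 _ D hD).directedOn (hκ.trans (Cardinal.cantor _).le)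
  · intro x _
    by_contra hcon
    obtain ⟨A, hA1, hA2⟩ := h3 x
    have := hA2 PUnit.unit (fun D hD hx => hcon ⟨D, hD, hx⟩)
    exact absurd (hA A hA1) (not_lt.2 this.le)

end Pool.Agent.Y584.Sc
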