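import Pool.Agent.Y584.Strong

set_option autoImplicit false

universe u

namespace Pool.Agent.Y584.Lub

open Cardinal Set Pool.Agent.Y584.Sc

theorem pigeon {κ : Cardinal.{u}} (hκ : κ.IsRegular) {V : Type u} (hV : #V < κ)
    (p : κ.ord.ToType → V) : ∃ v, ∀ α, ∃ β, α ≤ β ∧ p β = v := by
  by_contra hcon
  push Not at hcon
  choose a ha using hcon
  obtain ⟨b, hb⟩ := bdd hκ a hV
  exact ha (p b) b (hb _).le rfl

theorem cpow : ((2 : Cardinal.{u}) ^ ℵ₀) ^ ℵ₀ = 2 ^ ℵ₀ := by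
  rw [← Cardinal.power_mul, Cardinal.aleph0_mul_aleph0]

/-- functions with at most continuum many values at each place -/
theorem mk_choice {A : ℕ → Type u} (V : ∀ n, Set (A n)) (hV : ∀ n, #(V n) ≤ 2 ^ ℵ₀) :
    #{v : ∀ n, A n // ∀ n, v n ∈ V n} ≤ 2 ^ ℵ₀ := by
  have h1 : #{v : ∀ n, A n // ∀ n, v n ∈ V n} ≤ #(∀ n, V n) :=
    Cardinal.mk_le_of_injective (f := fun v n => ⟨v.1 n, v.2 n⟩) (by
      intro v w hvw
      apply Subtype.ext
      funext n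
      exact congrArg Subtype.val (congrFun hvw n))
  refine h1.trans ?_
  rw [Cardinal.mk_pi]
  calc Cardinal.prod (fun n => #(V n)) ≤ Cardinal.prod (fun _ : ℕ => (2 : Cardinal.{u}) ^ ℵ₀) :=
        Cardinal.prod_le_prod _ _ hV
    _ ≤ 2 ^ ℵ₀ := by
        rw [Cardinal.prod_const]
        simp only [Cardinal.lift_uzero, Cardinal.mk_nat, Cardinal.lift_aleph0]
        exact cpow.le

section lub

variable {κ : Cardinal.{u}} {L : ℕ → Type u} [∀ n, LinearOrder (L n)] [∀ n, WellFoundedLT (L n)]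

/-- `h` is an upper bound of the sequence modulo finite -/
def UB (f : κ.ord.ToType → ∀ n, L n) (h : ∀ n, WithTop (L n)) : Prop :=
  ∀ α, LeS (L := fun n => WithTop (L n)) (fun n => (f α n : WithTop (L n))) h

theorem exists_lub (hκ : κ.IsRegular) (hc : 2 ^ ℵ₀ < κ) (f : κ.ord.ToType → ∀ n, L n)
    (hf : ∀ α β, α ≤ β → LeS (f α) (f β)) :
    ∃ h : ∀ n, WithTop (L n), UB f h ∧ ∀ h', UB f h' → LeS (L := fun n => WithTop (L n)) h h' := by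
  classical
  have hw : ∀ h : (∀ n, WithTop (L n)), ∃ h', UB f h' ∧
      ((∃ h'', UB f h'' ∧ ¬ LeS (L := fun n => WithTop (L n)) h h'') →
        ¬ LeS (L := fun n => WithTop (L n)) h h') := by
    intro h
    by_cases hh : ∃ h'', UB f h'' ∧ ¬ LeS (L := fun n => WithTop (L n)) h h''
    · obtain ⟨h'', h1, h2⟩ := hh
      exact ⟨h'', h1, fun _ => h2⟩
    · exact ⟨fun _ => ⊤, fun α => ⟨0, fun n _ => le_top⟩, fun h' => absurd h' hh⟩
  choose wit hwit1 hwit2 using hw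
  let Q : Type u := Σ n : ULift.{u} ℕ, WithTop (L n.down)
  let S : Set Q → Set Q := fun Y => range (fun n : ULift.{u} ℕ => (⟨n, ⊤⟩ : Q)) ∪
    range (fun p : ULift.{u} ℕ × {h : ∀ n, WithTop (L n) // ∀ k, (⟨⟨k⟩, h k⟩ : Q) ∈ Y} =>
      (⟨p.1, wit p.2.1 p.1.down⟩ : Q))
  have hinf : ℵ₀ ≤ (2 : Cardinal.{u}) ^ ℵ₀ := (Cardinal.cantor _).le
  obtain ⟨X, hX1, hX2⟩ := Pool.Agent.Helper113.F.exists_closed (Q := Q) (κ := ℵ₀)
    (τ := 2 ^ ℵ₀) cpow.le hinf S (by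
      intro Y hY
      refine (Cardinal.mk_union_le _ _).trans ?_
      refine (add_le_add (b := 2 ^ ℵ₀) (d := 2 ^ ℵ₀) ?_ ?_).trans (Cardinal.add_eq_self hinf).le
      · refine Cardinal.mk_range_le.trans ?_
        rw [Cardinal.mk_uLift, Cardinal.mk_nat, Cardinal.lift_aleph0]
        exact hinf
      · refine Cardinal.mk_range_le.trans ?_
        rw [Cardinal.mk_prod, Cardinal.lift_id, Cardinal.lift_id]
        refine (mul_le_mul' (b := 2 ^ ℵ₀) (d := 2 ^ ℵ₀) ?_ ?_).trans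
          (Cardinal.mul_eq_self hinf).le
        · rw [Cardinal.mk_uLift, Cardinal.mk_nat, Cardinal.lift_aleph0]
          exact hinf
        · refine mk_choice (A := fun n => WithTop (L n)) (fun k => {w | (⟨⟨k⟩, w⟩ : Q) ∈ Y}) ?_
          intro k
          refine le_trans ?_ (hY.trans hinf)
          exact Cardinal.mk_le_of_injective
            (f := fun w : {w : WithTop (L k) | (⟨⟨k⟩, w⟩ : Q) ∈ Y} => (⟨⟨⟨k⟩, w.1⟩, w.2⟩ : Y)) (by
              intro v w hvw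
              have := congrArg Subtype.val hvw
              exact Subtype.ext (eq_of_heq (Sigma.mk.inj this).2)))
  have htop : ∀ n, (⟨⟨n⟩, ⊤⟩ : Q) ∈ X := fun n =>
    hX2 ∅ (empty_subset _) (by simp) (Or.inl ⟨⟨n⟩, rfl⟩)
  have hcl : ∀ h : (∀ n, WithTop (L n)), (∀ k, (⟨⟨k⟩, h k⟩ : Q) ∈ X) →
      ∀ n, (⟨⟨n⟩, wit h n⟩ : Q) ∈ X := by
    intro h hh n
    refine hX2 (range (fun k : ULift.{u} ℕ => (⟨k, h k.down⟩ : Q))) ?_ ?_ (Or.inr ?_)
    · rintro _ ⟨k, rfl⟩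
      exact hh k.down
    · refine Cardinal.mk_range_le.trans ?_
      rw [Cardinal.mk_uLift, Cardinal.mk_nat, Cardinal.lift_aleph0]
    · exact ⟨⟨⟨n⟩, ⟨h, fun k => ⟨⟨k⟩, rfl⟩⟩⟩, rfl⟩
  have hp : ∀ α n, ∃ w : WithTop (L n), ((⟨⟨n⟩, w⟩ : Q) ∈ X ∧ (f α n : WithTop (L n)) ≤ w) ∧
      ∀ w', ((⟨⟨n⟩, w'⟩ : Q) ∈ X ∧ (f α n : WithTop (L n)) ≤ w') → w ≤ w' := by
    intro α n
    have hne : {w : WithTop (L n) | (⟨⟨n⟩, w⟩ : Q) ∈ X ∧ (f α n : WithTop (L n)) ≤ w}.Nonempty :=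
      ⟨⊤, htop n, le_top⟩
    refine ⟨(wellFounded_lt : WellFounded ((· < ·) : WithTop (L n) → WithTop (L n) → Prop)).min
      _ hne, WellFounded.min_mem _ _ hne, ?_⟩
    intro w' hw'
    exact not_lt.1 (WellFounded.not_lt_min (wellFounded_lt : WellFounded ((· < ·) :
      WithTop (L n) → WithTop (L n) → Prop)) {w : WithTop (L n) | (⟨⟨n⟩, w⟩ : Q) ∈ X ∧
        (f α n : WithTop (L n)) ≤ w} (x := w') hw')
  choose p hp1 hp2 using hp
  have hVc : #{v : ∀ n, WithTop (L n) // ∀ n, v n ∈ {w | (⟨⟨n⟩, w⟩ : Q) ∈ X}} < κ := by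
    refine (mk_choice (A := fun n => WithTop (L n)) (fun k => {w | (⟨⟨k⟩, w⟩ : Q) ∈ X}) ?_).trans_lt
      hc
    intro k
    refine le_trans ?_ hX1
    exact Cardinal.mk_le_of_injective
      (f := fun w : {w : WithTop (L k) | (⟨⟨k⟩, w⟩ : Q) ∈ X} => (⟨⟨⟨k⟩, w.1⟩, w.2⟩ : X)) (by
        intro v w hvw
        have := congrArg Subtype.val hvw
        exact Subtype.ext (eq_of_heq (Sigma.mk.inj this).2))
  obtain ⟨v, hv⟩ := pigeon hκ hVc (fun α => ⟨fun n => p α n, fun n => (hp1 α n).1⟩)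
  have hub : UB f v.1 := by
    intro α
    obtain ⟨β, hαβ, hβ⟩ := hv α
    obtain ⟨m, hm⟩ := hf α β hαβ
    refine ⟨m, fun n hn => ?_⟩
    rw [← hβ]
    exact (WithTop.coe_le_coe.2 (hm n hn)).trans (hp1 β n).2
  refine ⟨v.1, hub, ?_⟩
  by_contra hcon
  push Not at hcon
  have h1 := hwit2 v.1 hcon
  apply h1
  obtain ⟨a0⟩ := bdd_zero hκ
  obtain ⟨β, -, hβ⟩ := hv a0
  obtain ⟨m, hm⟩ := hwit1 v.1 β
  refine ⟨m, fun n hn => ?_⟩
  have h2 : v.1 n = p β n := by rw [← hβ]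
  rw [h2]
  exact hp2 β n _ ⟨hcl v.1 v.2 n, hm n hn⟩

theorem big_cof (hκ : κ.IsRegular) (hc : 2 ^ ℵ₀ < κ) (f : κ.ord.ToType → ∀ n, L n)
    (hf : ∀ α β, α ≤ β → LeS (f α) (f β))
    (hf' : ∀ α, ∃ β, ∃ m, ∀ n, m ≤ n → f α n < f β n)
    (h : ∀ n, WithTop (L n)) (h1 : UB f h)
    (h2 : ∀ h', UB f h' → LeS (L := fun n => WithTop (L n)) h h') :
    ∃ m, ∀ n, m ≤ n → ∀ C : Set (L n), (∀ c ∈ C, (c : WithTop (L n)) < h n) → #C ≤ 2 ^ ℵ₀ →
      ∃ u : L n, (u : WithTop (L n)) < h n ∧ ∀ c ∈ C, c < u := by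
  classical
  by_contra hcon
  have hslt : ∀ α, ∃ m, ∀ n, m ≤ n → (f α n : WithTop (L n)) < h n := by
    intro α
    obtain ⟨β, m, hm⟩ := hf' α
    obtain ⟨m', hm'⟩ := h1 β
    exact ⟨max m m', fun n hn => (WithTop.coe_lt_coe.2 (hm n ((le_max_left _ _).trans hn))).trans_le
      (hm' n ((le_max_right _ _).trans hn))⟩
  let Bad : ℕ → Prop := fun n => ∃ C : Set (L n), (∀ c ∈ C, (c : WithTop (L n)) < h n) ∧
    #C ≤ 2 ^ ℵ₀ ∧ ∀ u : L n, (u : WithTop (L n)) < h n → ∃ c ∈ C, u ≤ c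
  have hbad : ∀ m, ∃ n, m ≤ n ∧ Bad n := by
    intro m
    by_contra hcm
    apply hcon
    refine ⟨m, fun n hn C hC1 hC2 => ?_⟩
    by_contra hcc
    apply hcm
    refine ⟨n, hn, C, hC1, hC2, fun u hu => ?_⟩
    by_contra hcu
    apply hcc
    refine ⟨u, hu, fun c hcC => ?_⟩
    by_contra hlt
    exact hcu ⟨c, hcC, not_lt.1 hlt⟩
  have hC : ∀ n, ∃ C : Set (L n), (∀ c ∈ C, (c : WithTop (L n)) < h n) ∧ #C ≤ 2 ^ ℵ₀ ∧
      (Bad n → ∀ u : L n, (u : WithTop (L n)) < h n → ∃ c ∈ C, u ≤ c) := by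
    intro n
    by_cases hb : Bad n
    · obtain ⟨C, h1, h2, h3⟩ := hb
      exact ⟨C, h1, h2, fun _ => h3⟩
    · exact ⟨∅, by simp, by simp, fun h => absurd h hb⟩
  choose C hC1 hC2 hC3 using hC
  have hq : ∀ α n, ∃ w : WithTop (L n), (w = h n ∨ ∃ c ∈ C n, (c : WithTop (L n)) = w) ∧
      ((f α n : WithTop (L n)) < h n → Bad n → ∃ c ∈ C n, (c : WithTop (L n)) = w) ∧
      ((f α n : WithTop (L n)) ≤ h n → (f α n : WithTop (L n)) ≤ w) := by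
    intro α n
    by_cases hb : (f α n : WithTop (L n)) < h n ∧ Bad n
    · obtain ⟨c, hc1, hc2⟩ := hC3 n hb.2 _ hb.1
      exact ⟨c, Or.inr ⟨c, hc1, rfl⟩, fun _ _ => ⟨c, hc1, rfl⟩, fun _ => WithTop.coe_le_coe.2 hc2⟩
    · exact ⟨h n, Or.inl rfl, fun a b => absurd ⟨a, b⟩ hb, fun a => a⟩
  choose q hq1 hq2 hq3 using hq
  have hinf : ℵ₀ ≤ (2 : Cardinal.{u}) ^ ℵ₀ := (Cardinal.cantor _).le
  have hVc : #{v : ∀ n, WithTop (L n) // ∀ n, v n ∈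
      insert (h n) ((fun c : L n => (c : WithTop (L n))) '' C n)} < κ := by
    refine (mk_choice (A := fun n => WithTop (L n)) _ ?_).trans_lt hc
    intro n
    refine Cardinal.mk_insert_le.trans ?_
    refine (add_le_add (b := 2 ^ ℵ₀) (d := 2 ^ ℵ₀) ?_ ?_).trans (Cardinal.add_eq_self hinf).le
    · exact Cardinal.mk_image_le.trans (hC2 n)
    · exact one_lt_aleph0.le.trans hinf
  obtain ⟨v, hv⟩ := pigeon hκ hVc (fun α => ⟨fun n => q α n, fun n => (hq1 α n).imp id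
    (fun ⟨c, hc1, hc2⟩ => ⟨c, hc1, hc2⟩)⟩)
  have hub : UB f v.1 := by
    intro α
    obtain ⟨β, hαβ, hβ⟩ := hv α
    obtain ⟨m, hm⟩ := hf α β hαβ
    obtain ⟨m', hm'⟩ := h1 β
    refine ⟨max m m', fun n hn => ?_⟩
    rw [← hβ]
    exact (WithTop.coe_le_coe.2 (hm n ((le_max_left _ _).trans hn))).trans
      (hq3 β n (hm' n ((le_max_right _ _).trans hn)))
  obtain ⟨m, hm⟩ := h2 v.1 hub
  obtain ⟨a0⟩ := bdd_zero hκ
  obtain ⟨β, -, hβ⟩ := hv a0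
  obtain ⟨m', hm'⟩ := hslt β
  obtain ⟨n, hn, hnb⟩ := hbad (max m m')
  obtain ⟨c, hc1, hc2⟩ := hq2 β n (hm' n ((le_max_right _ _).trans hn)) hnb
  have h3 := hm n ((le_max_left _ _).trans hn)
  have h4 : v.1 n = q β n := by rw [← hβ]
  rw [h4, ← hc2] at h3
  exact absurd h3 (not_le.2 (hC1 n c hc1))

theorem ext_inj2 {L : ℕ → Type u} (d : ∀ n, L n) (e : ℕ → ℕ)
    (he : Function.Injective e) (h' : ∀ n, L (e n)) : ∃ h : ∀ n, L n, (∀ n, h (e n) = h' n) ∧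
      ∀ k, (∀ n, e n ≠ k) → h k = d k := by
  classical
  refine ⟨fun k => if hk : ∃ n, e n = k then (Classical.choose_spec hk) ▸
    h' (Classical.choose hk) else d k, ?_, ?_⟩
  · intro n
    have hk : ∃ m, e m = e n := ⟨n, rfl⟩
    simp only [dif_pos hk]
    have key : ∀ m (hm : e m = e n), (hm ▸ h' m : L (e n)) = h' n := by
      intro m hm
      obtain rfl := he hm
      rfl
    exact key _ _
  · intro k hk
    have : ¬ ∃ n, e n = k := by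
      rintro ⟨n, hn⟩
      exact hk n hn
    simp only [dif_neg this]

/-- exactness on an infinite set -/
theorem exact_on (hκ : κ.IsRegular) (hc : 2 ^ ℵ₀ < κ) (f : κ.ord.ToType → ∀ n, L n)
    (hf : ∀ α β, α ≤ β → LeS (f α) (f β))
    (hf' : ∀ α, ∃ β, ∃ m, ∀ n, m ≤ n → f α n < f β n) :
    ∃ (h : ∀ n, WithTop (L n)) (e : ℕ ↪o ℕ), (∀ α, ∃ m, ∀ n, m ≤ n →
        (f α n : WithTop (L n)) < h n) ∧
      (∀ n, ∀ C : Set (L (e n)), (∀ c ∈ C, (c : WithTop (L (e n))) < h (e n)) → #C ≤ 2 ^ ℵ₀ →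
        ∃ u : L (e n), (u : WithTop (L (e n))) < h (e n) ∧ ∀ c ∈ C, c < u) ∧
      ∀ ψ : (∀ n, L (e n)), (∀ n, (ψ n : WithTop (L (e n))) < h (e n)) →
        ∃ β m, ∀ n, m ≤ n → ψ n ≤ f β (e n) := by
  classical
  obtain ⟨h, h1, h2⟩ := exists_lub hκ hc f hf
  obtain ⟨m0, hm0⟩ := big_cof hκ hc f hf hf' h h1 h2
  have hslt : ∀ α, ∃ m, ∀ n, m ≤ n → (f α n : WithTop (L n)) < h n := by
    intro α
    obtain ⟨β, m, hm⟩ := hf' α
    obtain ⟨m', hm'⟩ := h1 β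
    exact ⟨max m m', fun n hn => (WithTop.coe_lt_coe.2 (hm n ((le_max_left _ _).trans hn))).trans_le
      (hm' n ((le_max_right _ _).trans hn))⟩
  obtain ⟨a0⟩ := bdd_zero hκ
  -- a base function
  obtain ⟨d, hd⟩ : ∃ d : ∀ n, L n, ∀ n, m0 ≤ n → (d n : WithTop (L n)) < h n := by
    have : ∀ n, ∃ u : L n, m0 ≤ n → (u : WithTop (L n)) < h n := by
      intro n
      by_cases hn : m0 ≤ n
      · obtain ⟨u, hu, -⟩ := hm0 n hn ∅ (by simp) (by simp)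
        exact ⟨u, fun _ => hu⟩
      · exact ⟨f a0 n, fun h => absurd h hn⟩
    choose d hd using this
    exact ⟨d, hd⟩
  let Ok : (∀ n, L n) → Prop := fun ψ => ∀ n, m0 ≤ n → (ψ n : WithTop (L n)) < h n
  -- pigeonhole
  have hset : #(ULift.{u} (Set ℕ)) = 2 ^ ℵ₀ := by
    rw [Cardinal.mk_uLift, Cardinal.mk_set, Cardinal.mk_nat]
    simp
  have hpig : ∀ ψ : (∀ n, L n), ∃ E : Set ℕ, ∀ α, ∃ β, α ≤ β ∧ {n | f β n < ψ n} = E := by
    intro ψ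
    obtain ⟨v, hv⟩ := pigeon hκ (V := ULift.{u} (Set ℕ)) (by rw [hset]; exact hc)
      (fun α => ⟨{n | f α n < ψ n}⟩)
    refine ⟨v.down, fun α => ?_⟩
    obtain ⟨β, hβ, hβ2⟩ := hv α
    exact ⟨β, hβ, by rw [← hβ2]⟩
  choose Eh hEh using hpig
  -- choose one function for each set
  obtain ⟨ψs, hψs, hψs2⟩ : ∃ ψs : ∀ n, L n, Ok ψs ∧ ∀ ψ, Ok ψ → ∃ ψ', Ok ψ' ∧ Eh ψ' = Eh ψ ∧
      ∀ n, m0 ≤ n → ψ' n < ψs n := by
    let pick : ULift.{u} (Set ℕ) → ∀ n, L n := fun E =>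
      if hE : ∃ ψ, Ok ψ ∧ Eh ψ = E.down then hE.choose else d
    have hpick : ∀ E, Ok (pick E) := by
      intro E
      by_cases hE : ∃ ψ, Ok ψ ∧ Eh ψ = E.down
      · simp only [pick, dif_pos hE]
        exact hE.choose_spec.1
      · simp only [pick, dif_neg hE]
        exact hd
    have hs : ∀ n, ∃ u : L n, m0 ≤ n → (u : WithTop (L n)) < h n ∧ ∀ E, pick E n < u := by
      intro n
      by_cases hn : m0 ≤ n
      · obtain ⟨u, hu1, hu2⟩ := hm0 n hn (range (fun E => pick E n)) (by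
          rintro _ ⟨E, rfl⟩
          exact hpick E n hn) (Cardinal.mk_range_le.trans hset.le)
        exact ⟨u, fun _ => ⟨hu1, fun E => hu2 _ ⟨E, rfl⟩⟩⟩
      · exact ⟨d n, fun h => absurd h hn⟩
    choose ψs hψs using hs
    refine ⟨ψs, fun n hn => (hψs n hn).1, fun ψ hψ => ?_⟩
    have hE : ∃ ψ', Ok ψ' ∧ Eh ψ' = (ULift.up.{u} (Eh ψ)).down := ⟨ψ, hψ, rfl⟩
    refine ⟨pick ⟨Eh ψ⟩, hpick _, ?_, fun n hn => (hψs n hn).2 _⟩
    simp only [pick, dif_pos hE]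
    exact hE.choose_spec.2
  have hsub : ∀ ψ, Ok ψ → ∃ m, ∀ n, m ≤ n → n ∈ Eh ψ → n ∈ Eh ψs := by
    intro ψ hψ
    obtain ⟨ψ', hψ', hψ2, hψ3⟩ := hψs2 ψ hψ
    obtain ⟨β, -, hβ⟩ := hEh ψs a0
    obtain ⟨γ, hγ, hγ2⟩ := hEh ψ' β
    obtain ⟨m1, hm1⟩ := hf β γ hγ
    refine ⟨max m1 m0, fun n hn hnE => ?_⟩
    rw [← hψ2, ← hγ2] at hnE
    rw [← hβ]
    exact ((hm1 n ((le_max_left _ _).trans hn)).trans_lt hnE).trans
      (hψ3 n ((le_max_right _ _).trans hn))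
  have hcof : ∀ ψ, Ok ψ → ∃ β m, ∀ n, m ≤ n → n ∉ Eh ψs → ψ n ≤ f β n := by
    intro ψ hψ
    obtain ⟨m, hm⟩ := hsub ψ hψ
    obtain ⟨β, -, hβ⟩ := hEh ψ a0
    refine ⟨β, m, fun n hn hnE => ?_⟩
    by_contra hcon
    rw [not_le] at hcon
    apply hnE
    apply hm n hn
    rw [← hβ]
    exact hcon
  have hBinf : ({n | m0 ≤ n ∧ n ∉ Eh ψs} : Set ℕ).Infinite := by
    intro hfin
    have hub : UB f (fun n => (ψs n : WithTop (L n))) := by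
      intro α
      obtain ⟨γ, hγ, hγ2⟩ := hEh ψs α
      obtain ⟨m1, hm1⟩ := hf α γ hγ
      obtain ⟨m2, hm2⟩ := hfin.bddAbove
      refine ⟨max (max m1 m0) (m2 + 1), fun n hn => ?_⟩
      have hn1 : m1 ≤ n := (le_max_left _ _).trans ((le_max_left _ _).trans hn)
      have hn0 : m0 ≤ n := (le_max_right _ _).trans ((le_max_left _ _).trans hn)
      have hn2 : m2 + 1 ≤ n := (le_max_right _ _).trans hn
      have hnE : n ∈ Eh ψs := by
        by_contra hcon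
        have := hm2 (show n ∈ {n | m0 ≤ n ∧ n ∉ Eh ψs} from ⟨hn0, hcon⟩)
        omega
      rw [← hγ2] at hnE
      exact WithTop.coe_le_coe.2 ((hm1 n hn1).trans (le_of_lt hnE))
    obtain ⟨m, hm⟩ := h2 _ hub
    exact absurd (hm (max m m0) (le_max_left _ _)) (not_le.2 (hψs (max m m0) (le_max_right _ _)))
  have : Infinite ({n | m0 ≤ n ∧ n ∉ Eh ψs} : Set ℕ) := hBinf.to_subtype
  have : DecidablePred (· ∈ ({n | m0 ≤ n ∧ n ∉ Eh ψs} : Set ℕ)) := Classical.decPred _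
  let e : ℕ ↪o ℕ := Nat.orderEmbeddingOfSet ({n | m0 ≤ n ∧ n ∉ Eh ψs} : Set ℕ)
  have he : ∀ n, m0 ≤ e n ∧ e n ∉ Eh ψs := by
    intro n
    have h1 : e n ∈ Set.range e := ⟨n, rfl⟩
    rw [Nat.orderEmbeddingOfSet_range] at h1
    exact h1
  have hle : ∀ n, n ≤ e n := fun n => e.strictMono.le_apply
  refine ⟨h, e, hslt, fun n => hm0 (e n) (he n).1, ?_⟩
  intro ψ' hψ'
  obtain ⟨ψ, hψ1, hψ2⟩ := ext_inj2 d e e.injective ψ'
  have hok : Ok ψ := by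
    intro k hk
    by_cases hke : ∃ n, e n = k
    · obtain ⟨n, rfl⟩ := hke
      rw [hψ1]
      exact hψ' n
    · rw [hψ2 k (fun n hn => hke ⟨n, hn⟩)]
      exact hd k hk
  obtain ⟨β, m, hm⟩ := hcof ψ hok
  refine ⟨β, m, fun n hn => ?_⟩
  rw [← hψ1 n]
  exact hm _ (hn.trans (hle n)) (he n).2

end lub

end Pool.Agent.Y584.Lub
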