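import Pool.Agent.Helper113.FTable2

set_option autoImplicit false

universe u

namespace Pool.Agent.Y584.Sc

open Cardinal Set

/-- eventual domination -/
def LeS {L : ℕ → Type u} [∀ n, LinearOrder (L n)] (x y : ∀ n, L n) : Prop :=
  ∃ m : ℕ, ∀ n, m ≤ n → x n ≤ y n

theorem LeS.refl {L : ℕ → Type u} [∀ n, LinearOrder (L n)] (x : ∀ n, L n) : LeS x x :=
  ⟨0, fun _ _ => le_rfl⟩

theorem LeS.trans {L : ℕ → Type u} [∀ n, LinearOrder (L n)] {x y z : ∀ n, L n}
    (h1 : LeS x y) (h2 : LeS y z) : LeS x z := by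
  obtain ⟨m1, h1⟩ := h1
  obtain ⟨m2, h2⟩ := h2
  exact ⟨max m1 m2, fun n hn => (h1 n ((le_max_left _ _).trans hn)).trans
    (h2 n ((le_max_right _ _).trans hn))⟩

theorem bdd {μ : Cardinal.{u}} (hreg : μ.IsRegular) {ι : Type u} (f : ι → μ.ord.ToType)
    (h : #ι < μ) : ∃ b, ∀ i, f i < b := by
  obtain ⟨b, hb⟩ := Pool.Agent.Helper113.F.bounded_of_lt hreg (range f)
    (Cardinal.mk_range_le.trans_lt h)
  exact ⟨b, fun i => hb _ ⟨i, rfl⟩⟩

theorem bdd_one {μ : Cardinal.{u}} (hreg : μ.IsRegular) (x : μ.ord.ToType) : ∃ b, x < b := by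
  obtain ⟨b, hb⟩ := bdd hreg (fun _ : PUnit.{u+1} => x) (by
    rw [Cardinal.mk_punit]
    exact one_lt_aleph0.trans_le hreg.aleph0_le)
  exact ⟨b, hb PUnit.unit⟩

theorem bdd_zero {μ : Cardinal.{u}} (hreg : μ.IsRegular) : Nonempty μ.ord.ToType := by
  rw [← Cardinal.mk_ne_zero_iff, Cardinal.mk_ord_toType]
  exact hreg.ne_zero

section scale

variable (lam : ℕ → Cardinal.{u}) (hreg : ∀ n, (lam n).IsRegular) (hmono : StrictMono lam)

include hreg hmono in
theorem small_bdd (m : ℕ) (T : Set (∀ n, (lam n).ord.ToType)) (hT : #T < lam m) :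
    ∃ h : ∀ n, (lam n).ord.ToType, ∀ f ∈ T, LeS f h := by
  have h1 : ∀ n, ∃ b : (lam n).ord.ToType, m ≤ n → ∀ f : T, f.1 n < b := by
    intro n
    by_cases hn : m ≤ n
    · obtain ⟨b, hb⟩ := bdd (hreg n) (fun f : T => f.1 n) (hT.trans_le (hmono.monotone hn))
      exact ⟨b, fun _ => hb⟩
    · obtain ⟨b⟩ := bdd_zero (hreg n)
      exact ⟨b, fun h => absurd h hn⟩
  choose h hh using h1
  exact ⟨h, fun f hf => ⟨m, fun n hn => (hh n hn ⟨f, hf⟩).le⟩⟩

/-- the bounding number of the product modulo finite -/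
noncomputable def bb : Cardinal.{u} :=
  sInf {c | ∃ T : Set (∀ n, (lam n).ord.ToType), #T = c ∧
    ¬ ∃ h : ∀ n, (lam n).ord.ToType, ∀ f ∈ T, LeS f h}

include hreg in
theorem bb_mem : ∃ T : Set (∀ n, (lam n).ord.ToType), #T = bb lam ∧
    ¬ ∃ h : ∀ n, (lam n).ord.ToType, ∀ f ∈ T, LeS f h := by
  have hne : {c | ∃ T : Set (∀ n, (lam n).ord.ToType), #T = c ∧
    ¬ ∃ h : ∀ n, (lam n).ord.ToType, ∀ f ∈ T, LeS f h}.Nonempty := by
    refine ⟨_, univ, rfl, ?_⟩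
    rintro ⟨h, hh⟩
    have h1 : ∀ n, ∃ b, h n < b := fun n => bdd_one (hreg n) (h n)
    choose b hb using h1
    obtain ⟨m, hm⟩ := hh b (mem_univ _)
    exact absurd (hm m le_rfl) (not_le.2 (hb m))
  exact csInf_mem hne

theorem bdd_of_lt_bb (T : Set (∀ n, (lam n).ord.ToType)) (hT : #T < bb lam) :
    ∃ h : ∀ n, (lam n).ord.ToType, ∀ f ∈ T, LeS f h := by
  by_contra hcon
  exact absurd hT (not_lt.2 (csInf_le' ⟨T, rfl, hcon⟩))

include hreg hmono in
theorem lt_bb (m : ℕ) : lam m < bb lam := by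
  refine (hmono (Nat.lt_succ_self m)).trans_le ?_
  obtain ⟨T, hT, hT2⟩ := bb_mem lam hreg
  by_contra hcon
  rw [not_le, ← hT] at hcon
  exact hT2 (small_bdd lam hreg hmono _ T hcon)

/-- an increasing unbounded sequence -/
theorem exists_seq (lam : ℕ → Cardinal.{u}) (hreg : ∀ n, (lam n).IsRegular)
    (hmono : StrictMono lam) : ∃ f : (bb lam).ord.ToType → ∀ n, (lam n).ord.ToType,
    (∀ α β, α ≤ β → LeS (f α) (f β)) ∧ ¬ ∃ h, ∀ α, LeS (f α) h := by
  classical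
  obtain ⟨T, hT, hT2⟩ := bb_mem lam hreg
  have hinf : ℵ₀ ≤ bb lam := (hreg 0).aleph0_le.trans (lt_bb lam hreg hmono 0).le
  have hcard : #((bb lam).ord.ToType) = #T := by rw [Cardinal.mk_ord_toType, hT]
  obtain ⟨e⟩ := Cardinal.eq.1 hcard
  have hub : ∀ S : Set (∀ n, (lam n).ord.ToType), ∃ h : ∀ n, (lam n).ord.ToType,
      #S < bb lam → ∀ f ∈ S, LeS f h := by
    intro S
    by_cases hS : #S < bb lam
    · obtain ⟨h, hh⟩ := bdd_of_lt_bb lam S hS
      exact ⟨h, fun _ => hh⟩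
    · exact ⟨fun n => (bdd_zero (hreg n)).some, fun h => absurd h hS⟩
  choose ub hub using hub
  let wf : WellFounded ((· < ·) : (bb lam).ord.ToType → (bb lam).ord.ToType → Prop) :=
    wellFounded_lt
  let f : (bb lam).ord.ToType → ∀ n, (lam n).ord.ToType := wf.fix
    (fun α ih => ub (insert (e α).1 (range (fun β : Iio α => ih β.1 β.2))))
  have hf : ∀ α, f α = ub (insert (e α).1 (range (fun β : Iio α => f β.1))) := by
    intro α
    exact wf.fix_eq _ α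
  have hsm : ∀ α, #(insert (e α).1 (range (fun β : Iio α => f β.1)) :
      Set (∀ n, (lam n).ord.ToType)) < bb lam := by
    intro α
    refine Cardinal.mk_insert_le.trans_lt ?_
    refine Cardinal.add_lt_of_lt hinf ?_ (one_lt_aleph0.trans_le hinf)
    exact Cardinal.mk_range_le.trans_lt (Pool.Agent.Helper113.F.mk_Iio_lt_of α)
  refine ⟨f, ?_, ?_⟩
  · intro α β hab
    rcases hab.eq_or_lt with rfl | hlt
    · exact LeS.refl _
    · rw [hf β]
      exact hub _ (hsm β) _ (Or.inr ⟨⟨α, hlt⟩, rfl⟩)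
  · rintro ⟨h, hh⟩
    refine hT2 ⟨h, fun t ht => ?_⟩
    have h1 : LeS t (f (e.symm ⟨t, ht⟩)) := by
      rw [hf]
      refine hub _ (hsm _) _ (Or.inl ?_)
      rw [Equiv.apply_symm_apply]
    exact h1.trans (hh _)

end scale

theorem bb_regular (lam : ℕ → Cardinal.{u}) (hreg : ∀ n, (lam n).IsRegular)
    (hmono : StrictMono lam) : (bb lam).IsRegular := by
  have hinf : ℵ₀ ≤ bb lam := (hreg 0).aleph0_le.trans (lt_bb lam hreg hmono 0).le
  refine ⟨hinf, ?_⟩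
  obtain ⟨f, hf1, hf2⟩ := exists_seq lam hreg hmono
  rw [← Ordinal.cof_toType, Order.le_cof_iff]
  intro S hS
  by_contra hcon
  rw [not_le] at hcon
  obtain ⟨h, hh⟩ := bdd_of_lt_bb lam (f '' S) (Cardinal.mk_image_le.trans_lt hcon)
  refine hf2 ⟨h, fun α => ?_⟩
  obtain ⟨β, hβ, hαβ⟩ := hS α
  exact (hf1 α β hαβ).trans (hh _ ⟨β, hβ, rfl⟩)

theorem ext_inj {L : ℕ → Type u} (hne : ∀ n, Nonempty (L n)) (e : ℕ → ℕ)
    (he : Function.Injective e) (h' : ∀ n, L (e n)) : ∃ h : ∀ n, L n, ∀ n, h (e n) = h' n := by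
  classical
  refine ⟨fun k => if hk : ∃ n, e n = k then (Classical.choose_spec hk) ▸
    h' (Classical.choose hk) else (hne k).some, ?_⟩
  intro n
  have hk : ∃ m, e m = e n := ⟨n, rfl⟩
  simp only [dif_pos hk]
  have key : ∀ m (hm : e m = e n), (hm ▸ h' m : L (e n)) = h' n := by
    intro m hm
    obtain rfl := he hm
    rfl
  exact key _ _

theorem exists_true_scale (ν : Cardinal.{u}) :
    ∃ (κ : Cardinal.{u}) (lam : ℕ → Cardinal.{u}) (g : κ.ord.ToType → ∀ n, (lam n).ord.ToType),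
      ν < κ ∧ κ.IsRegular ∧ (∀ n, (lam n).IsRegular) ∧ StrictMono lam ∧
      (∀ α β, α ≤ β → LeS (g α) (g β)) ∧ ∀ h, ∃ α, LeS h (g α) := by
  classical
  -- the cardinals
  obtain ⟨lam, hreg, hmono, hν, hc⟩ : ∃ lam : ℕ → Cardinal.{u}, (∀ n, (lam n).IsRegular) ∧
      StrictMono lam ∧ ν < lam 0 ∧ 2 ^ ℵ₀ < lam 0 := by
    let c : Cardinal.{u} := max ν (2 ^ ℵ₀)
    have hcinf : ℵ₀ ≤ c := (Cardinal.cantor _).le.trans (le_max_right _ _)
    let lam : ℕ → Cardinal.{u} := fun n => Order.succ (Order.succ^[n] c)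
    have hinf : ∀ n, ℵ₀ ≤ Order.succ^[n] c := by
      intro n
      induction n with
      | zero => exact hcinf
      | succ n ih =>
        rw [Function.iterate_succ_apply']
        exact ih.trans (Order.le_succ _)
    refine ⟨lam, fun n => Cardinal.isRegular_succ (hinf n), ?_, ?_, ?_⟩
    · refine strictMono_nat_of_lt_succ (fun n => ?_)
      change Order.succ (Order.succ^[n] c) < Order.succ (Order.succ^[n+1] c)
      rw [Function.iterate_succ_apply']
      exact Order.lt_succ _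
    · exact (le_max_left _ _).trans_lt (Order.lt_succ _)
    · exact (le_max_right _ _).trans_lt (Order.lt_succ _)
  obtain ⟨f, hf1, hf2⟩ := exists_seq lam hreg hmono
  have hκ := bb_regular lam hreg hmono
  have hκc : 2 ^ ℵ₀ < bb lam := hc.trans (lt_bb lam hreg hmono 0)
  -- pigeonhole
  have hpig : ∀ h : (∀ n, (lam n).ord.ToType), ∃ E : Set ℕ, ∀ α, ∃ β, α ≤ β ∧
      {n | f β n < h n} = E := by
    intro h
    by_contra hcon
    push Not at hcon
    choose a ha using hcon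
    obtain ⟨b, hb⟩ := bdd hκ (fun E : ULift.{u} (Set ℕ) => a E.down) (by
      have : #(ULift.{u} (Set ℕ)) = 2 ^ ℵ₀ := by
        rw [Cardinal.mk_uLift, Cardinal.mk_set, Cardinal.mk_nat]
        simp
      rw [this]
      exact hκc)
    exact ha _ b (hb ⟨_⟩).le rfl
  choose Eh hEh using hpig
  -- choose one h for each set
  obtain ⟨hs, hhs⟩ : ∃ hs : ∀ n, (lam n).ord.ToType, ∀ h, ∃ h', Eh h' = Eh h ∧ LeS h' hs := by
    let pick : ULift.{u} (Set ℕ) → ∀ n, (lam n).ord.ToType := fun E =>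
      if hE : ∃ h, Eh h = E.down then hE.choose else fun n => (bdd_zero (hreg n)).some
    obtain ⟨hs, hhs⟩ := bdd_of_lt_bb lam (range pick) (by
      have : #(ULift.{u} (Set ℕ)) = 2 ^ ℵ₀ := by
        rw [Cardinal.mk_uLift, Cardinal.mk_set, Cardinal.mk_nat]
        simp
      exact Cardinal.mk_range_le.trans_lt (this ▸ hκc))
    refine ⟨hs, fun h => ?_⟩
    have hE : ∃ h', Eh h' = (ULift.up.{u} (Eh h)).down := ⟨h, rfl⟩
    refine ⟨pick ⟨Eh h⟩, ?_, hhs _ ⟨_, rfl⟩⟩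
    simp only [pick, dif_pos hE]
    exact hE.choose_spec
  have hsub : ∀ h, ∃ m, ∀ n, m ≤ n → n ∈ Eh h → n ∈ Eh hs := by
    intro h
    obtain ⟨h', hh', hh2⟩ := hhs h
    obtain ⟨a0⟩ := bdd_zero hκ
    obtain ⟨β, -, hβ⟩ := hEh hs a0
    obtain ⟨γ, hγ, hγ2⟩ := hEh h' β
    obtain ⟨m1, hm1⟩ := hf1 β γ hγ
    obtain ⟨m2, hm2⟩ := hh2
    refine ⟨max m1 m2, fun n hn hnE => ?_⟩
    rw [← hh', ← hγ2] at hnE
    rw [← hβ]
    exact ((hm1 n ((le_max_left _ _).trans hn)).trans_lt hnE).trans_le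
      (hm2 n ((le_max_right _ _).trans hn))
  have hcof : ∀ h : (∀ n, (lam n).ord.ToType), ∃ β m, ∀ n, m ≤ n → n ∉ Eh hs → h n ≤ f β n := by
    intro h
    obtain ⟨m, hm⟩ := hsub h
    obtain ⟨a0⟩ := bdd_zero hκ
    obtain ⟨β, -, hβ⟩ := hEh h a0
    refine ⟨β, m, fun n hn hnE => ?_⟩
    by_contra hcon
    rw [not_le] at hcon
    apply hnE
    apply hm n hn
    rw [← hβ]
    exact hcon
  have hBinf : ((Eh hs)ᶜ : Set ℕ).Infinite := by
    intro hfin
    apply hf2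
    refine ⟨hs, fun α => ?_⟩
    obtain ⟨γ, hγ, hγ2⟩ := hEh hs α
    obtain ⟨m1, hm1⟩ := hf1 α γ hγ
    obtain ⟨m2, hm2⟩ := hfin.bddAbove
    refine ⟨max m1 (m2 + 1), fun n hn => ?_⟩
    have hn1 : m1 ≤ n := (le_max_left _ _).trans hn
    have hn2 : m2 + 1 ≤ n := (le_max_right _ _).trans hn
    have hnE : n ∈ Eh hs := by
      by_contra hcon
      have := hm2 hcon
      omega
    rw [← hγ2] at hnE
    exact (hm1 n hn1).trans (le_of_lt hnE)
  have : Infinite ((Eh hs)ᶜ : Set ℕ) := hBinf.to_subtype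
  have : DecidablePred (· ∈ ((Eh hs)ᶜ : Set ℕ)) := Classical.decPred _
  let e : ℕ ↪o ℕ := Nat.orderEmbeddingOfSet ((Eh hs)ᶜ : Set ℕ)
  have he : ∀ n, e n ∉ Eh hs := by
    intro n
    have h1 : e n ∈ Set.range e := ⟨n, rfl⟩
    rw [Nat.orderEmbeddingOfSet_range] at h1
    exact h1
  have hle : ∀ n, n ≤ e n := fun n => e.strictMono.le_apply
  refine ⟨bb lam, fun n => lam (e n), fun α n => f α (e n), ?_, hκ, fun n => hreg _,
    hmono.comp e.strictMono, ?_, ?_⟩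
  · exact hν.trans (lt_bb lam hreg hmono 0)
  · intro α β hab
    obtain ⟨m, hm⟩ := hf1 α β hab
    exact ⟨m, fun n hn => hm _ (hn.trans (hle n))⟩
  · intro h'
    obtain ⟨h, hh⟩ := ext_inj (L := fun n => (lam n).ord.ToType) (fun n => bdd_zero (hreg n)) e
      e.injective h'
    obtain ⟨β, m, hm⟩ := hcof h
    refine ⟨β, m, fun n hn => ?_⟩
    rw [← hh n]
    exact hm _ (hn.trans (hle n)) (he n)

end Pool.Agent.Y584.Sc
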