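import Pool.Agent.Y584.Order

set_option autoImplicit false

universe u

namespace Pool.Agent.Y584.St

open Cardinal Set Pool.Agent.Y584.Sc

section good

variable {L : ℕ → Type u} [∀ n, LinearOrder (L n)]

/-- a local test function -/
abbrev Loc (L : ℕ → Type u) : Type u := ∀ n : ℕ, (∀ i : Fin n, L i) → L n

/-- the restriction of a sequence -/
def res (n : ℕ) (x : ∀ i, L i) : ∀ i : Fin n, L i := fun i => x i

/-- from some place on the values of `x` are at least those of the test function -/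
def Pass (ψ : Loc L) (x : ∀ n, L n) : Prop := ∃ m : ℕ, ∀ n, m ≤ n → ψ n (res n x) ≤ x n

/-- `x ↾ m` is a good node for `X` -/
def Good (X : Set (∀ n, L n)) (m : ℕ) (x : ∀ n, L n) : Prop :=
  ∀ ψ : Loc L, ∃ γ ∈ X, (∀ i, i < m → γ i = x i) ∧ ∀ i, m ≤ i → ψ i (res i γ) ≤ γ i

variable (hne : ∀ n, Nonempty (L n))

include hne in
theorem exists_good (X : Set (∀ n, L n)) (hX : ∀ ψ : Loc L, ∃ γ ∈ X, Pass ψ γ) :
    ∃ m x, Good X m x := by
  classical
  by_contra hcon
  have hbad : ∀ (m : ℕ) (t : ∀ i : Fin m, L i), ∃ ψ : Loc L,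
      ∀ γ ∈ X, res m γ = t → ∃ i, m ≤ i ∧ γ i < ψ i (res i γ) := by
    intro m t
    by_contra hc
    let x : ∀ n, L n := fun n => if h : n < m then t ⟨n, h⟩ else (hne n).some
    refine hcon ⟨m, x, fun ψ => ?_⟩
    by_contra hc2
    refine hc ⟨ψ, fun γ hγ h => ?_⟩
    by_contra hc3
    refine hc2 ⟨γ, hγ, ?_, fun i hi => ?_⟩
    · intro i hi
      simp only [x, dif_pos hi]
      exact congrFun h ⟨i, hi⟩
    · by_contra hc4
      exact hc3 ⟨i, hi, not_le.1 hc4⟩
  choose Ψ hΨ using hbad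
  have hb : ∀ (n : ℕ) (s : ∀ i : Fin n, L i), ∃ b : L n, ∀ m (hm : m ≤ n),
      Ψ m (fun i : Fin m => s ⟨i, i.2.trans_le hm⟩) n s ≤ b := by
    intro n s
    have : Nonempty (L n) := hne n
    obtain ⟨b, hb⟩ := Finset.exists_le (Finset.univ.image (fun m : Fin (n + 1) =>
      Ψ m (fun i : Fin m => s ⟨i, i.2.trans_le (Nat.lt_succ_iff.1 m.2)⟩) n s))
    exact ⟨b, fun m hm => hb _ (Finset.mem_image.2 ⟨⟨m, Nat.lt_succ_of_le hm⟩,
      Finset.mem_univ _, rfl⟩)⟩
  choose ψ hψ using hb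
  obtain ⟨γ, hγ, m, hm⟩ := hX ψ
  obtain ⟨i, hi, hlt⟩ := hΨ m (res m γ) γ hγ rfl
  have h1 := hψ i (res i γ) m hi
  have h2 := hm i hi
  exact absurd ((hlt.trans_le h1).trans_le h2) (lt_irrefl _)

include hne in
theorem Good.step {X : Set (∀ n, L n)} {m : ℕ} {x : ∀ n, L n}
    (h : Good X m x) (b : L m) :
    ∃ c, b ≤ c ∧ Good X (m + 1) (Function.update x m c) := by
  classical
  by_contra hcon
  have hbad : ∀ c : L m, ∃ ψ : Loc L, b ≤ c →
      ∀ γ ∈ X, (∀ i, i < m + 1 → γ i = Function.update x m c i) →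
        ∃ i, m + 1 ≤ i ∧ γ i < ψ i (res i γ) := by
    intro c
    by_contra hc
    by_cases hbc : b ≤ c
    · refine hcon ⟨c, hbc, fun ψ => ?_⟩
      by_contra hc2
      refine hc ⟨ψ, fun _ γ hγ h => ?_⟩
      by_contra hc3
      refine hc2 ⟨γ, hγ, h, fun i hi => ?_⟩
      by_contra hc4
      exact hc3 ⟨i, hi, not_le.1 hc4⟩
    · exact hc ⟨fun n _ => (hne n).some, fun h => absurd h hbc⟩
  choose Ψ hΨ using hbad
  let d : ∀ n, L n := Function.update (fun n => (hne n).some) m b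
  let ψ : Loc L := fun n s => if h : m < n then Ψ (s ⟨m, h⟩) n s else d n
  obtain ⟨γ, hγ, h1, h2⟩ := h ψ
  have hb : b ≤ γ m := by
    have := h2 m le_rfl
    simp only [ψ, lt_irrefl, dif_neg, not_false_eq_true, d, Function.update_self] at this
    exact this
  obtain ⟨i, hi, hlt⟩ := hΨ (γ m) hb γ hγ (by
    intro i hi
    rcases (Nat.lt_succ_iff.1 hi).lt_or_eq with hlt | rfl
    · rw [Function.update_of_ne hlt.ne]
      exact h1 i hlt
    · rw [Function.update_self])
  have h4 := h2 i (by omega)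
  have hmi : m < i := hi
  simp only [ψ, dif_pos hmi] at h4
  exact absurd (hlt.trans_le h4) (lt_irrefl _)

include hne in
theorem exists_tri (hmax : ∀ n (x : L n), ∃ y, x < y)
    (X : Set (∀ n, L n)) (hX : ∀ ψ : Loc L, ∃ γ ∈ X, Pass ψ γ) :
    ∃ α ∈ X, ∃ γ ∈ X, Tri α γ := by
  obtain ⟨n, y, hy⟩ : ∃ n y, Good X (2 * n + 1) y := by
    obtain ⟨m, x, hx⟩ := exists_good hne X hX
    rcases Nat.even_or_odd m with ⟨k, hk⟩ | ⟨k, hk⟩
    · obtain ⟨c, _, hc⟩ := hx.step hne (hne m).some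
      have : m + 1 = 2 * k + 1 := by omega
      exact ⟨k, _, this ▸ hc⟩
    · exact ⟨k, x, hk ▸ hx⟩
  obtain ⟨B, _, hB⟩ := hy.step hne (hne _).some
  obtain ⟨b, hb⟩ := hmax _ B
  obtain ⟨C, hbC, hC⟩ := hy.step hne b
  obtain ⟨α, hα, hα1, _⟩ := hC (fun n _ => (hne n).some)
  obtain ⟨γ, hγ, hγ1, hγ2⟩ := hB (fun n _ => α n)
  have e1 : ∀ i, i < 2 * n + 1 → α i = γ i := by
    intro i hi
    rw [hα1 i (by omega), hγ1 i (by omega), Function.update_of_ne (by omega),
      Function.update_of_ne (by omega)]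
  refine ⟨α, hα, γ, hγ, n, e1, ?_, ?_⟩
  · rw [hα1 _ (by omega), hγ1 _ (by omega), Function.update_self, Function.update_self]
    exact hb.trans_le hbC
  · intro i
    rcases lt_or_ge (2 * i) (2 * n + 1) with h | h
    · exact (e1 _ h).le
    · exact hγ2 _ (by omega)

end good

/-- The abstract form: a sequence of regular length that eventually passes all local tests. -/
theorem core_abstract {κ : Cardinal.{u}} (hκ : κ.IsRegular) (L : ℕ → Type u)
    [∀ n, LinearOrder (L n)] [∀ n, WellFoundedLT (L n)] (hne : ∀ n, Nonempty (L n))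
    (hmax : ∀ n (x : L n), ∃ y, x < y) (g : κ.ord.ToType → ∀ n, L n)
    (hg : ∀ ψ : Loc L, ∃ β, ∀ α, β ≤ α → Pass ψ (g α)) :
    ∃ (P : Type u) (_ : PartialOrder P), #P = κ ∧
      (∀ A : Set P, IsAntichain (· ≤ ·) A → #A < κ) ∧
      ∀ I : Set P, I.Nonempty → DirectedOn (· ≤ ·) I → #I < κ := by
  classical
  -- a set of elements which is not small passes all tests
  have hP1 : ∀ X : Set (∀ n, L n), X ⊆ range g → ¬ #X < κ →
      ∀ ψ : Loc L, ∃ γ ∈ X, Pass ψ γ := by
    intro X hXg hX ψ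
    obtain ⟨β, hβ⟩ := hg ψ
    have hun : ∃ α ∈ g ⁻¹' X, β ≤ α := by
      by_contra hcon
      push Not at hcon
      apply hX
      have hsub : X ⊆ g '' (Iio β) := by
        intro x hx
        obtain ⟨α, rfl⟩ := hXg hx
        exact ⟨α, hcon α hx, rfl⟩
      exact (Cardinal.mk_le_mk_of_subset hsub).trans_lt
        (Cardinal.mk_image_le.trans_lt (Pool.Agent.Helper113.F.mk_Iio_lt_of β))
    obtain ⟨α, hα, hβα⟩ := hun
    exact ⟨g α, hα, hβ α hβα⟩
  let G : Set (∀ n, L n) := range g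
  have hdirb : ∀ D : Set (∀ n, L n), D ⊆ range g → D.Nonempty →
      (∀ a ∈ D, ∀ b ∈ D, ∃ c ∈ D, (a = c ∨ Tri a c) ∧ (b = c ∨ Tri b c)) → #D < κ := by
    intro D hDg hne' hdir
    by_contra hcon
    obtain ⟨x, hx⟩ := dir_bdd D hne' hdir
    choose y hy using fun n => hmax n (x n)
    obtain ⟨γ, hγ, m, hm⟩ := hP1 D hDg hcon (fun n _ => y n)
    have h2 := hm (2 * m) (by omega)
    have h3 := hx γ hγ m
    exact absurd ((hy (2 * m)).trans_le (h2.trans h3)) (lt_irrefl _)
  have hval : ∀ A : Set (PO G), #A = #(Subtype.val '' A : Set (∀ n, L n)) := by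
    intro A
    exact (Cardinal.mk_image_eq (s := A) (f := (Subtype.val : PO G → _))
      Subtype.val_injective).symm
  have hsubr : ∀ A : Set (PO G), (Subtype.val '' A : Set (∀ n, L n)) ⊆ range g := by
    rintro A _ ⟨a, _, rfl⟩
    exact a.2
  refine ⟨PO G, inferInstance, ?_, ?_, ?_⟩
  · refine le_antisymm ?_ ?_
    · have : #(range g) ≤ #(κ.ord.ToType) := Cardinal.mk_range_le
      rw [Cardinal.mk_ord_toType] at this
      exact this
    · by_contra hcon
      rw [not_le] at hcon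
      have hG : #(range g) < κ := hcon
      -- some value is taken cofinally often
      have hfib : ∃ c : ∀ n, L n, ∀ β, ∃ α, β ≤ α ∧ g α = c := by
        by_contra hc
        push Not at hc
        choose b hb using hc
        obtain ⟨e, he⟩ := bdd hκ (fun γ : range g => b γ.1) hG
        exact hb (g e) e (he ⟨g e, e, rfl⟩).le rfl
      obtain ⟨c, hc⟩ := hfib
      choose y hy using fun n => hmax n (c n)
      obtain ⟨β, hβ⟩ := hg (fun n _ => y n)
      obtain ⟨α, hα1, hα2⟩ := hc β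
      obtain ⟨m, hm⟩ := hβ α hα1
      have := hm m le_rfl
      rw [hα2] at this
      exact absurd this (not_le.2 (hy m))
  · intro A hA
    by_contra hcon
    rw [hval] at hcon
    obtain ⟨α, ⟨a, ha, rfl⟩, γ, ⟨c, hc, rfl⟩, htri⟩ :=
      exists_tri hne hmax _ (hP1 _ (hsubr A) hcon)
    have hac : a ≠ c := by
      rintro rfl
      exact Tri.irrefl _ htri
    exact hA ha hc hac (Or.inr htri)
  · intro I hne' hdir
    rw [hval]
    refine hdirb _ (hsubr I) (hne'.image _) ?_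
    rintro _ ⟨a, ha, rfl⟩ _ ⟨b, hb, rfl⟩
    obtain ⟨c, hc, h1, h2⟩ := hdir a ha b hb
    exact ⟨c.1, ⟨c, hc, rfl⟩, h1, h2⟩

/-- building a sequence which dominates at stage `n` fewer than cofinality many tests -/
theorem exists_pass {L : ℕ → Type u} [∀ n, LinearOrder (L n)] (S : ℕ → Set (Loc L))
    (hS : ∀ n (f : S n → L n), ∃ b, ∀ i, f i ≤ b) :
    ∃ x : ∀ n, L n, ∀ n, ∀ ψ ∈ S n, ψ n (res n x) ≤ x n := by
  classical
  have h1 : ∀ n (s : ∀ i : Fin n, L i), ∃ b, ∀ ψ : S n, ψ.1 n s ≤ b :=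
    fun n s => hS n (fun ψ => ψ.1 n s)
  choose b hb using h1
  let wf : WellFounded ((· < ·) : ℕ → ℕ → Prop) := wellFounded_lt
  let x : ∀ n, L n := wf.fix (C := fun n => L n) (fun n ih => b n (fun i => ih i i.2))
  have hx : ∀ n, x n = b n (res n x) := by
    intro n
    exact wf.fix_eq (C := fun n => L n) _ n
  refine ⟨x, fun n ψ hψ => ?_⟩
  rw [hx n]
  exact hb n (res n x) ⟨ψ, hψ⟩

theorem cof_omega_seq {lam : Cardinal.{u}} (hinf : ℵ₀ ≤ lam) (hcof : lam.ord.cof = ℵ₀) :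
    ∃ f : ℕ → lam.ord.ToType, Monotone f ∧ ∀ x, ∃ n, x < f n := by
  classical
  have hlim : ∀ x : lam.ord.ToType, ∃ y, x < y := by
    have : NoMaxOrder lam.ord.ToType := Cardinal.noMaxOrder hinf
    exact fun x => exists_gt x
  obtain ⟨S, hS1, hS2⟩ := Order.exists_cof_eq lam.ord.ToType
  rw [Ordinal.cof_toType, hcof] at hS2
  obtain ⟨e⟩ : Nonempty (ULift.{u} ℕ ≃ S) := by
    rw [← Cardinal.eq, hS2]
    simp
  let a : ℕ → lam.ord.ToType := fun n => (e ⟨n⟩).1
  refine ⟨partialSups a, (partialSups a).monotone, fun x => ?_⟩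
  obtain ⟨y, hy⟩ := hlim x
  obtain ⟨z, hz, hyz⟩ := hS1 y
  refine ⟨(e.symm ⟨z, hz⟩).down, hy.trans_le (hyz.trans ?_)⟩
  have h1 : a (e.symm ⟨z, hz⟩).down = z := by
    change (e ⟨(e.symm ⟨z, hz⟩).down⟩).1 = z
    have : (⟨(e.symm ⟨z, hz⟩).down⟩ : ULift.{u} ℕ) = e.symm ⟨z, hz⟩ := rfl
    rw [this, Equiv.apply_symm_apply]
  calc z = a (e.symm ⟨z, hz⟩).down := h1.symm
    _ ≤ partialSups a (e.symm ⟨z, hz⟩).down := le_partialSups a _

theorem core_omega {lam : Cardinal.{u}} (hinf : ℵ₀ ≤ lam) (hcof : lam.ord.cof = ℵ₀)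
    (hpow : (2 : Cardinal.{u}) ^ lam = Order.succ lam) :
    ∃ (P : Type u) (_ : PartialOrder P), #P = Order.succ lam ∧
      (∀ A : Set P, IsAntichain (· ≤ ·) A → #A < Order.succ lam) ∧
      ∀ I : Set P, I.Nonempty → DirectedOn (· ≤ ·) I → #I < Order.succ lam := by
  classical
  obtain ⟨f, hf1, hf2⟩ := cof_omega_seq hinf hcof
  let c : ℕ → Cardinal.{u} := fun n =>
    if lam = ℵ₀ then ℵ₀ else Order.succ (max ℵ₀ #(Iio (f n)))
  have hcreg : ∀ n, (c n).IsRegular := by
    intro n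
    by_cases h : lam = ℵ₀
    · simp only [c, if_pos h]
      exact Cardinal.isRegular_aleph0
    · simp only [c, if_neg h]
      exact Cardinal.isRegular_succ (le_max_left _ _)
  have hclt : ∀ n, #(Iio (f n)) < c n := by
    intro n
    by_cases h : lam = ℵ₀
    · simp only [c, if_pos h]
      exact (Pool.Agent.Helper113.F.mk_Iio_lt_of (f n)).trans_eq h
    · simp only [c, if_neg h]
      exact (le_max_right _ _).trans_lt (Order.lt_succ _)
  have hcle : ∀ n, c n ≤ lam := by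
    intro n
    by_cases h : lam = ℵ₀
    · simp only [c, if_pos h]
      exact h.ge
    · simp only [c, if_neg h]
      refine Order.succ_le_of_lt (max_lt (lt_of_le_of_ne hinf (Ne.symm h)) ?_)
      exact Pool.Agent.Helper113.F.mk_Iio_lt_of (f n)
  let L : ℕ → Type u := fun n => (c n).ord.ToType
  have hLle : ∀ n, #(L n) ≤ lam := by
    intro n
    change #((c n).ord.ToType) ≤ lam
    rw [Cardinal.mk_ord_toType]
    exact hcle n
  have hnode : ∀ n : ℕ, #(∀ i : Fin n, L i) ≤ lam := by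
    intro n
    rw [Cardinal.mk_pi]
    calc Cardinal.prod (fun i : Fin n => #(L i))
        ≤ Cardinal.prod (fun _ : Fin n => lam) := Cardinal.prod_le_prod _ _ (fun i => hLle i)
      _ ≤ lam := by
          rw [Cardinal.prod_const]
          simp only [Cardinal.mk_fin, Cardinal.lift_uzero, Cardinal.lift_natCast]
          exact Cardinal.power_nat_le hinf
  have hlampow : lam ^ lam = Order.succ lam := by
    rw [Cardinal.power_self_eq hinf, hpow]
  have hloc : #(Loc L) ≤ Order.succ lam := by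
    rw [Cardinal.mk_pi]
    calc Cardinal.prod (fun n : ℕ => #((∀ i : Fin n, L i) → L n))
        ≤ Cardinal.prod (fun _ : ℕ => lam ^ lam) := by
          refine Cardinal.prod_le_prod _ _ (fun n => ?_)
          rw [← Cardinal.power_def]
          exact (Cardinal.power_le_power_right (hLle n)).trans
            (Cardinal.power_le_power_left (aleph0_pos.trans_le hinf).ne' (hnode n))
      _ ≤ Order.succ lam := by
          rw [Cardinal.prod_const]
          simp only [Cardinal.lift_uzero, Cardinal.mk_nat, Cardinal.lift_aleph0]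
          rw [← Cardinal.power_mul, Cardinal.mul_eq_left hinf hinf aleph0_ne_zero, hlampow]
  have hκ : (Order.succ lam).IsRegular := Cardinal.isRegular_succ hinf
  have hlocne : Nonempty (Loc L) := ⟨fun n _ => (bdd_zero (hcreg n)).some⟩
  obtain ⟨en, hen⟩ : ∃ en : (Order.succ lam).ord.ToType → Loc L, Function.Surjective en := by
    obtain ⟨j⟩ : Nonempty (Loc L ↪ (Order.succ lam).ord.ToType) := by
      rw [← Cardinal.le_def, Cardinal.mk_ord_toType]
      exact hloc
    exact ⟨Function.invFun j, Function.invFun_surjective j.injective⟩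
  have hchoose : ∀ α : (Order.succ lam).ord.ToType, ∃ x : ∀ n, L n, ∀ β, β < α →
      Pass (en β) x := by
    intro α
    obtain ⟨j⟩ : Nonempty (Iio α ↪ lam.ord.ToType) := by
      rw [← Cardinal.le_def, Cardinal.mk_ord_toType]
      exact Order.lt_succ_iff.1 (Pool.Agent.Helper113.F.mk_Iio_lt_of α)
    let S : ℕ → Set (Loc L) := fun n => {ψ | ∃ β : Iio α, j β < f n ∧ en β = ψ}
    have hScard : ∀ n, #(S n) < c n := by
      intro n
      refine lt_of_le_of_lt ?_ (hclt n)
      have hsub : S n ⊆ (fun x : lam.ord.ToType => if h : ∃ β : Iio α, j β = x then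
          en h.choose.1 else en α) '' (Iio (f n)) := by
        rintro ψ ⟨β, hβ, rfl⟩
        refine ⟨j β, hβ, ?_⟩
        have h : ∃ β' : Iio α, j β' = j β := ⟨β, rfl⟩
        simp only [dif_pos h]
        rw [j.injective h.choose_spec]
      exact (Cardinal.mk_le_mk_of_subset hsub).trans Cardinal.mk_image_le
    obtain ⟨x, hx⟩ := exists_pass S (fun n F => by
      obtain ⟨b, hb⟩ := bdd (hcreg n) F (hScard n)
      exact ⟨b, fun i => (hb i).le⟩)
    refine ⟨x, fun β hβ => ?_⟩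
    obtain ⟨n, hn⟩ := hf2 (j ⟨β, hβ⟩)
    exact ⟨n, fun k hk => hx k _ ⟨⟨β, hβ⟩, hn.trans_le (hf1 hk), rfl⟩⟩
  choose g hg using hchoose
  refine core_abstract hκ L (fun n => bdd_zero (hcreg n)) (fun n x => bdd_one (hcreg n) x) g ?_
  intro ψ
  obtain ⟨β, rfl⟩ := hen ψ
  obtain ⟨β', hβ'⟩ := bdd_one hκ β
  exact ⟨β', fun α hα => hg α β (hβ'.trans_le hα)⟩

end Pool.Agent.Y584.St
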